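import Pool.Agent.Helper82.SZ.Base

/-!
# Project SZ: auxiliary lemmas of helper97 (half of a multiset, divisibility by a separable polynomial)
-/

set_option autoImplicit false
set_option linter.all false

open Polynomial
open scoped Classical

namespace Pool.Agent.Helper82.SZ.A97

/-- the multiset with the multiplicities `⌊n / 2⌋` -/
noncomputable def half {α : Type} (S : Multiset α) : Multiset α :=
  Finsupp.toMultiset ((Multiset.toFinsupp S).mapRange (fun n => n / 2) (by simp))

lemma count_half {α : Type} (S : Multiset α) (x : α) : (half S).count x = S.count x / 2 := by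
  unfold half
  rw [Finsupp.count_toMultiset, Finsupp.mapRange_apply, Multiset.toFinsupp_apply]

/-- the set of the elements of odd multiplicity -/
noncomputable def odds {α : Type} (S : Multiset α) : Finset α :=
  S.toFinset.filter (fun x => Odd (S.count x))

lemma mem_odds {α : Type} (S : Multiset α) (x : α) : x ∈ odds S ↔ Odd (S.count x) := by
  unfold odds
  rw [Finset.mem_filter, Multiset.mem_toFinset]
  refine ⟨fun h => h.2, fun h => ⟨?_, h⟩⟩
  exact Multiset.count_pos.1 h.pos

lemma split_half {α : Type} (S : Multiset α) : S = half S + half S + (odds S).val := by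
  ext x
  rw [Multiset.count_add, Multiset.count_add, count_half]
  have h1 : (odds S).val.count x = if Odd (S.count x) then 1 else 0 := by
    rw [Multiset.count_eq_of_nodup (odds S).nodup]
    simp only [Finset.mem_val, mem_odds]
  rw [h1]
  split_ifs with h
  · obtain ⟨k, hk⟩ := h
    omega
  · rw [Nat.not_odd_iff_even] at h
    obtain ⟨k, hk⟩ := h
    omega

lemma prod_split {α β : Type} [CommMonoid β] (S : Multiset α) (φ : α → β) :
    (S.map φ).prod = ((half S).map φ).prod ^ 2 * ∏ x ∈ odds S, φ x := by
  conv_lhs => rw [split_half S]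
  rw [Multiset.map_add, Multiset.map_add, Multiset.prod_add, Multiset.prod_add, pow_two]
  rfl

lemma count_equiv {α : Type} (S : Multiset α) (g : α ≃ α) (h : S.map g = S) (x : α) :
    S.count (g x) = S.count x := by
  conv_lhs => rw [← h]
  exact Multiset.count_map_eq_count' g S g.injective x

lemma half_equiv {α : Type} (S : Multiset α) (g : α ≃ α) (h : S.map g = S) :
    (half S).map g = half S := by
  ext y
  obtain ⟨x, rfl⟩ := g.surjective y
  rw [Multiset.count_map_eq_count' g _ g.injective x, count_half, count_half, count_equiv S g h]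

lemma mem_half {α : Type} (S : Multiset α) (x : α) (h : x ∈ half S) : x ∈ S := by
  rw [← Multiset.count_pos] at h ⊢
  rw [count_half] at h
  omega

/-- a separable polynomial divides a polynomial which vanishes at its zeros -/
lemma dvd_of_zeros {E : Type} [Field E] (f q : E[X]) (hf : f.Separable)
    (h : ∀ e : AlgebraicClosure E, aeval e f = 0 → aeval e q = 0) : f ∣ q := by
  by_cases hq : q = 0
  · subst hq; exact dvd_zero _
  have hf0 : f ≠ 0 := hf.ne_zero
  rw [← Polynomial.map_dvd_map' (algebraMap E (AlgebraicClosure E))]
  have hf1 : f.map (algebraMap E (AlgebraicClosure E)) ≠ 0 :=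
    (Polynomial.map_ne_zero_iff (algebraMap E (AlgebraicClosure E)).injective).2 hf0
  have hq1 : q.map (algebraMap E (AlgebraicClosure E)) ≠ 0 :=
    (Polynomial.map_ne_zero_iff (algebraMap E (AlgebraicClosure E)).injective).2 hq
  rw [IsAlgClosed.dvd_iff_roots_le_roots hf1 hq1]
  have hn : (f.map (algebraMap E (AlgebraicClosure E))).roots.Nodup :=
    Polynomial.nodup_roots (hf.map)
  rw [Multiset.le_iff_subset hn]
  intro e he
  rw [Polynomial.mem_roots hq1, Polynomial.IsRoot.def, Polynomial.eval_map_algebraMap]
  rw [Polynomial.mem_roots hf1, Polynomial.IsRoot.def, Polynomial.eval_map_algebraMap] at he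
  exact h e he

/-- two polynomials without a common zero are coprime -/
lemma coprime_of_zeros {E : Type} [Field E] (f q : E[X])
    (h : ∀ e : AlgebraicClosure E, aeval e f = 0 → aeval e q ≠ 0) : IsCoprime f q := by
  rw [Polynomial.isCoprime_iff_aeval_ne_zero_of_isAlgClosed E (AlgebraicClosure E)]
  intro a
  by_cases h1 : aeval a f = 0
  · exact Or.inr (h a h1)
  · exact Or.inl h1

/-- the value of the polynomial with the set of zeros `T` -/
lemma aeval_prod {E : Type} [Field E] (T : Finset (AlgebraicClosure E)) (p : E[X])
    (hp : p.map (algebraMap E (AlgebraicClosure E)) = ∏ x ∈ T, (X - C x))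
    (e : AlgebraicClosure E) : aeval e p = ∏ x ∈ T, (e - x) := by
  rw [← Polynomial.eval_map_algebraMap, hp, Polynomial.eval_prod]
  simp

lemma aeval_prod_zero {E : Type} [Field E] (T : Finset (AlgebraicClosure E)) (p : E[X])
    (hp : p.map (algebraMap E (AlgebraicClosure E)) = ∏ x ∈ T, (X - C x))
    (e : AlgebraicClosure E) : aeval e p = 0 ↔ e ∈ T := by
  rw [aeval_prod T p hp, Finset.prod_eq_zero_iff]
  constructor
  · rintro ⟨x, hx, h⟩
    rw [sub_eq_zero] at h
    rwa [h]
  · intro h
    exact ⟨e, h, sub_self _⟩

lemma prod_neg {E : Type} [Field E] (T : Finset (AlgebraicClosure E)) (e : AlgebraicClosure E) :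
    ∏ x ∈ T, (x - e) = (-1) ^ T.card * ∏ x ∈ T, (e - x) := by
  rw [← Finset.prod_const, ← Finset.prod_mul_distrib]
  refine Finset.prod_congr rfl fun x _ => ?_
  ring

end Pool.Agent.Helper82.SZ.A97
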