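import Mathlib

/-!
# Project SZ (helper82): places of algebraic extensions, and Kummer classes of divisors

Statements of the independent modules (Mathlib only). Each module is a theorem with the type given by the `Prop`.
-/

set_option autoImplicit false
set_option linter.all false

open Polynomial
open scoped Classical

namespace Pool.Agent.Helper82.SZ

/-! ### Places -/

/-- A place of the field `N` with values in the field `C`: a valuation ring and a homomorphism to `C` whose
kernel is the maximal ideal. -/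
structure Pl (N C : Type) [Field N] [Field C] where
  W : ValuationSubring N
  ρ : W →+* C
  loc : ∀ x : W, ρ x ≠ 0 → (x : N)⁻¹ ∈ W

/-- `c` is the value of `x`. -/
def Pl.val {N C : Type} [Field N] [Field C] (p : Pl N C) (x : N) (c : C) : Prop :=
  ∃ h : x ∈ p.W, p.ρ ⟨x, h⟩ = c

/-- EXT: extension of places to algebraic extensions. Proof: let `B` be the integral closure of `p.W` in `N'`,
and `Q` a prime of `B` over the kernel of `ρ` (lying over); `B ⧸ Q` is algebraic over `p.W ⧸ ker`, so
the map to `C` extends (`IsAlgClosed.lift`). Or: `LocalSubring.exists_le_valuationSubring` for the image of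
`p.W` in `N'`, and its residue field is algebraic over that of `p.W`: an element `z` of a valuation ring above
`p.W` is a zero of a polynomial over `p.W` with a coefficient equal to 1 (divide by the largest). -/
def S_EXT : Prop := ∀ (N N' C : Type) [Field N] [Field N'] [Algebra N N'] [Algebra.IsAlgebraic N N']
  [Field C] [IsAlgClosed C] (p : Pl N C), ∃ p' : Pl N' C, ∀ (z : N) (c : C),
    p'.val (algebraMap N N' z) c ↔ p.val z c

/-- CONJ: two places of a finite Galois extension which are equal on the base field are conjugate. Proof: let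
`B` be the integral closure of `p.W ∩ N = q.W ∩ N` in `N'`, with the action of the Galois group (integrally
closed base, so `Algebra.IsInvariant`). The kernels of `p` and `q` on `B` are conjugate
(`Algebra.IsInvariant.exists_smul_of_under_eq`), and the automorphisms of `B ⧸ Q` come from the stabilizer
(`Ideal.Quotient.stabilizerHom_surjective`; `Ideal.Quotient.normal`). Every `z ∈ p.W` is `b / b'` with
`b, b' ∈ B`, `p(b') ≠ 0`: take `a_n z ^ n + ... + a_0 = 0` with `a_j` in the base valuation ring, some `a_i`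
a unit and `a_j` not a unit for `j > i`; then `b' = a_n z ^ (n - i) + ... + a_i` and `b' z` are integral (they
are in every valuation ring of `N'` above the base: look at `z` or `z⁻¹`). -/
def S_CONJ : Prop := ∀ (N N' C : Type) [Field N] [Field N'] [Algebra N N'] [FiniteDimensional N N']
  [IsGalois N N'] [Field C] [IsAlgClosed C] (p q : Pl N' C),
  (∀ (z : N) (c : C), p.val (algebraMap N N' z) c ↔ q.val (algebraMap N N' z) c) →
  ∃ k : N' ≃ₐ[N] N', ∀ (z : N') (c : C), q.val z c ↔ p.val (k z) c

/-! ### Divisors -/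

section div

/-- Points of order two: LAG (available, `lag0` of the library): Lagrange interpolation with Galois descent. -/
def S_LAG : Prop := ∀ (E : Type) [Field E] [CharZero E] (f : E[X]), f.Separable →
  ∀ γ : AlgebraicClosure E → AlgebraicClosure E,
  (∀ (τ : AlgebraicClosure E ≃ₐ[E] AlgebraicClosure E) (e : AlgebraicClosure E), aeval e f = 0 →
    τ (γ e) = γ (τ e)) → ∃ s : E[X], ∀ e : AlgebraicClosure E, aeval e f = 0 → aeval e s = γ e

/-- FIX: a finite set stable under the Galois group is the set of zeros of a separable polynomial over `E`. -/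
def S_FIX : Prop := ∀ (E : Type) [Field E] [CharZero E] (T : Finset (AlgebraicClosure E)),
  (∀ (σ : AlgebraicClosure E ≃ₐ[E] AlgebraicClosure E), ∀ x ∈ T, σ x ∈ T) →
  ∃ p : E[X], p.Monic ∧ p.Separable ∧ p.natDegree = T.card ∧
    p.map (algebraMap E (AlgebraicClosure E)) = ∏ x ∈ T, (X - C x)

/-- ODD: a multiset `S` of points `(x, y)` of `y ^ 2 = f(x)`, `f(x) ≠ 0`, stable under the Galois group. Proof:
let `T` be the set of the `x` for which the number of the points of `S` over `x` is odd. For `x ∈ T` exactly one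
of the two points over `x` has odd multiplicity (`y ≠ -y`), call it `(x, y(x))`; `y` is equivariant. Take `p`
from FIX for `T`, `v` from LAG for `p` and `y`. For the product: `∏_(x ∈ T) (x - e)` times the square of
`m(e) = ∏_x (x - e) ^ ⌊n(x) / 2⌋`. -/
def S_ODD : Prop := ∀ (E : Type) [Field E] [CharZero E] (f : E[X]) (S : Multiset
  (AlgebraicClosure E × AlgebraicClosure E)), (∀ P ∈ S, P.2 ^ 2 = aeval P.1 f) →
  (∀ P ∈ S, aeval P.1 f ≠ 0) →
  (∀ σ : AlgebraicClosure E ≃ₐ[E] AlgebraicClosure E, S.map (fun P => (σ P.1, σ P.2)) = S) →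
  ∃ (p v : E[X]) (m : AlgebraicClosure E → AlgebraicClosure E),
    p.Monic ∧ IsCoprime p f ∧ p ∣ v ^ 2 - f ∧
    (∀ (σ : AlgebraicClosure E ≃ₐ[E] AlgebraicClosure E) (e : AlgebraicClosure E), aeval e f = 0 →
      σ (m e) = m (σ e)) ∧
    ∀ e : AlgebraicClosure E, aeval e f = 0 → m e ≠ 0 ∧
      (S.map fun P => P.1 - e).prod = m e ^ 2 * ((-1) ^ p.natDegree * aeval e p)

/-- BRA: a multiset `S` of zeros of `f`, stable under the Galois group. Proof: let `B` be the set of the zeros
with odd multiplicity in `S`, `f_B = ∏_(e ∈ B) (X - e)` (FIX), `f = f_B f_C`. Then `u = f_B - f_C` if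
`deg f_B > deg f_C`, and `u = f_C - f_B` if not, with `v = f_B`: `f_B ^ 2 - f = f_B (f_B - f_C)`. For `e ∉ B`:
`∏_(b ∈ B) (b - e) = (-1) ^ deg f_B f_B(e)`. For `e ∈ B`: `f'(e) = f_B'(e) f_C(e)` and
`∏_(b ∈ B, b ≠ e) (b - e) = (-1) ^ (deg f_B - 1) f_B'(e)`, so the product is `(-1) ^ (deg f_B - 1) / f_C(e)`,
and `m(e)` has the extra factor `1 / f_C(e)` there. -/
def S_BRA : Prop := ∀ (E : Type) [Field E] [CharZero E] (f : E[X]) (g : ℕ), f.Monic → f.Separable →
  f.natDegree = 2 * g + 1 → ∀ S : Multiset (AlgebraicClosure E), (∀ x ∈ S, aeval x f = 0) →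
  (∀ σ : AlgebraicClosure E ≃ₐ[E] AlgebraicClosure E, S.map σ = S) →
  ∃ (u v : E[X]) (m : AlgebraicClosure E → AlgebraicClosure E),
    u.Monic ∧ IsCoprime u f ∧ u ∣ v ^ 2 - f ∧
    (∀ (σ : AlgebraicClosure E ≃ₐ[E] AlgebraicClosure E) (e : AlgebraicClosure E), aeval e f = 0 →
      σ (m e) = m (σ e)) ∧
    ∀ e : AlgebraicClosure E, aeval e f = 0 → m e ≠ 0 ∧
      (S.map fun x => if x = e then (aeval e (derivative f))⁻¹ else x - e).prod =
        m e ^ 2 * ((-1) ^ u.natDegree * aeval e u)

/-- DIV: the Kummer class of a divisor over `E`. From ODD (the points with `f(x) ≠ 0`), BRA (the points with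
`f(x) = 0`) and LAG. -/
def S_DIV : Prop := ∀ (E : Type) [Field E] [CharZero E] (f : E[X]) (g : ℕ), f.Monic → f.Separable →
  f.natDegree = 2 * g + 1 → ∀ S : Multiset (AlgebraicClosure E × AlgebraicClosure E),
  (∀ P ∈ S, P.2 ^ 2 = aeval P.1 f) →
  (∀ σ : AlgebraicClosure E ≃ₐ[E] AlgebraicClosure E, S.map (fun P => (σ P.1, σ P.2)) = S) →
  ∀ (h : E[X]) (γ : AlgebraicClosure E → AlgebraicClosure E),
    (∀ (σ : AlgebraicClosure E ≃ₐ[E] AlgebraicClosure E) (e : AlgebraicClosure E), aeval e f = 0 →
      σ (γ e) = γ (σ e)) →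
    (∀ e : AlgebraicClosure E, aeval e f = 0 → γ e ^ 2 = aeval e h *
      (S.map fun P => if P.1 = e then (aeval e (derivative f))⁻¹ else P.1 - e).prod) →
    ∃ (l : List (E[X] × E[X])) (s : E[X]),
      (∀ p ∈ l, p.1.Monic ∧ IsCoprime p.1 f ∧ p.1 ∣ p.2 ^ 2 - f) ∧
      f ∣ h * (l.map fun p => (-1) ^ p.1.natDegree * p.1).prod - s ^ 2

end div

end Pool.Agent.Helper82.SZ
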