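import Pool.Agent.Helper82.SZ.Aux97

/-!
# Project SZ, module BRA: Galois stable multisets of zeros of `f` (helper97)
-/

set_option autoImplicit false
set_option linter.all false

open Polynomial
open scoped Classical

namespace Pool.Agent.Helper82.SZ

open A97

theorem bra (hF : S_FIX) : S_BRA := by
  intro E _ _ f g hfm hfs hfd S hS hσ
  obtain ⟨B, hB⟩ : ∃ B : Finset (AlgebraicClosure E), B = odds S := ⟨_, rfl⟩
  have hBσ : ∀ (σ : AlgebraicClosure E ≃ₐ[E] AlgebraicClosure E), ∀ x ∈ B, σ x ∈ B := by
    intro σ x hx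
    rw [hB, mem_odds] at hx ⊢
    have h2 : S.count (σ x) = S.count x := count_equiv S σ.toEquiv (hσ σ) x
    rw [h2]; exact hx
  have hBf : ∀ x ∈ B, aeval x f = 0 := by
    intro x hx
    rw [hB, mem_odds] at hx
    exact hS x (Multiset.count_pos.1 hx.pos)
  obtain ⟨b, hbm, hbs, hbd, hb⟩ := hF E B hBσ
  have hbz : ∀ e : AlgebraicClosure E, aeval e b = 0 ↔ e ∈ B := fun e => aeval_prod_zero B b hb e
  obtain ⟨c, hc⟩ : b ∣ f := dvd_of_zeros b f hbs fun e he => hBf e ((hbz e).1 he)
  have hcm : c.Monic := hbm.of_mul_monic_left (hc ▸ hfm)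
  have hbc : IsCoprime b c := by
    have := hfs
    rw [hc] at this
    exact this.isCoprime
  have hdeg : b.natDegree + c.natDegree = 2 * g + 1 := by
    rw [← hfd, hc, hbm.natDegree_mul hcm]
  -- values
  have hval : ∀ e : AlgebraicClosure E, aeval e f = aeval e b * aeval e c := by
    intro e; rw [hc, map_mul]
  have hcB : ∀ e : AlgebraicClosure E, e ∈ B → aeval e c ≠ 0 := by
    intro e he h0
    obtain ⟨s, t, hst⟩ := hbc
    have h1 := congrArg (aeval e) hst
    rw [map_add, map_mul, map_mul, (hbz e).2 he, h0, map_one, mul_zero, mul_zero, add_zero] at h1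
    exact zero_ne_one h1
  have hc0 : ∀ e : AlgebraicClosure E, aeval e f = 0 → e ∉ B → aeval e c = 0 := by
    intro e he heB
    rw [hval] at he
    rcases mul_eq_zero.1 he with h | h
    · exact absurd ((hbz e).1 h) heB
    · exact h
  have hder : ∀ e : AlgebraicClosure E, aeval e f = 0 → aeval e (derivative f) ≠ 0 := by
    intro e he h0
    obtain ⟨s, t, hst⟩ := hfs
    have h1 := congrArg (aeval e) hst
    rw [map_add, map_mul, map_mul, he, h0, map_one, mul_zero, mul_zero, add_zero] at h1
    exact zero_ne_one h1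
  have hderB : ∀ e : AlgebraicClosure E, e ∈ B → aeval e (derivative f) = aeval e (derivative b) * aeval e c := by
    intro e he
    rw [hc, derivative_mul, map_add, map_mul, map_mul, (hbz e).2 he, zero_mul, add_zero]
  have hderb : ∀ e : AlgebraicClosure E, e ∈ B → aeval e (derivative b) = ∏ x ∈ B.erase e, (e - x) := by
    intro e he
    rw [← Polynomial.eval_map_algebraMap, ← Polynomial.derivative_map, hb,
      Polynomial.derivative_prod_finset, Polynomial.eval_finset_sum]
    rw [Finset.sum_eq_single e]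
    · simp [Polynomial.eval_prod]
    · intro x hx hxe
      rw [Polynomial.eval_mul, Polynomial.eval_prod]
      rw [Finset.prod_eq_zero (Finset.mem_erase.2 ⟨hxe.symm, he⟩) (by simp), zero_mul]
    · intro h; exact absurd he h
  -- the product over `B`
  obtain ⟨φ, hφ⟩ : ∃ φ : AlgebraicClosure E → AlgebraicClosure E → AlgebraicClosure E,
    φ = fun e x => if x = e then (aeval e (derivative f))⁻¹ else x - e := ⟨_, rfl⟩
  have hφ0 : ∀ e : AlgebraicClosure E, aeval e f = 0 → ∀ x : AlgebraicClosure E, φ e x ≠ 0 := by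
    intro e he x
    rw [hφ]
    show (if x = e then (aeval e (derivative f))⁻¹ else x - e) ≠ 0
    split_ifs with h
    · exact inv_ne_zero (hder e he)
    · exact sub_ne_zero.2 h
  have hφσ : ∀ (σ : AlgebraicClosure E ≃ₐ[E] AlgebraicClosure E) (e x : AlgebraicClosure E),
      σ (φ e x) = φ (σ e) (σ x) := by
    intro σ e x
    rw [hφ]
    show σ (if x = e then (aeval e (derivative f))⁻¹ else x - e) =
      if σ x = σ e then (aeval (σ e) (derivative f))⁻¹ else σ x - σ e
    by_cases h : x = e
    · rw [if_pos h, if_pos (by rw [h]), map_inv₀]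
      congr 1
      exact (Polynomial.aeval_algHom_apply (σ : AlgebraicClosure E →ₐ[E] AlgebraicClosure E) e
        (derivative f)).symm
    · rw [if_neg h, if_neg (fun h1 => h (σ.injective h1)), map_sub]
  obtain ⟨ψ, hψ⟩ : ∃ ψ : AlgebraicClosure E → AlgebraicClosure E,
    ψ = fun e => if e ∈ B then (aeval e c)⁻¹ else 1 := ⟨_, rfl⟩
  have hψ0 : ∀ e : AlgebraicClosure E, ψ e ≠ 0 := by
    intro e
    rw [hψ]
    show (if e ∈ B then (aeval e c)⁻¹ else 1) ≠ 0
    split_ifs with h
    · exact inv_ne_zero (hcB e h)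
    · exact one_ne_zero
  have hBσ' : ∀ (σ : AlgebraicClosure E ≃ₐ[E] AlgebraicClosure E) (e : AlgebraicClosure E),
      σ e ∈ B ↔ e ∈ B := by
    intro σ e
    refine ⟨fun h => ?_, fun h => hBσ σ e h⟩
    have := hBσ σ.symm _ h
    rwa [AlgEquiv.symm_apply_apply] at this
  have hψσ : ∀ (σ : AlgebraicClosure E ≃ₐ[E] AlgebraicClosure E) (e : AlgebraicClosure E),
      σ (ψ e) = ψ (σ e) := by
    intro σ e
    rw [hψ]
    show σ (if e ∈ B then (aeval e c)⁻¹ else 1) = if σ e ∈ B then (aeval (σ e) c)⁻¹ else 1
    by_cases h : e ∈ B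
    · rw [if_pos h, if_pos (hBσ σ e h), map_inv₀]
      congr 1
      exact (Polynomial.aeval_algHom_apply (σ : AlgebraicClosure E →ₐ[E] AlgebraicClosure E) e
        c).symm
    · rw [if_neg h, if_neg (fun h1 => h ((hBσ' σ e).1 h1)), map_one]
  -- the value of the product over `B`, with the sign
  have hprod : ∀ e : AlgebraicClosure E, aeval e f = 0 → ∏ x ∈ B, φ e x =
      ψ e ^ 2 * ((-1) ^ b.natDegree * (aeval e b - aeval e c)) := by
    intro e he
    rw [hbd]
    by_cases h : e ∈ B
    · rw [← Finset.mul_prod_erase B _ h]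
      have h1 : φ e e = (aeval e (derivative f))⁻¹ := by
        rw [hφ]; exact if_pos rfl
      have h2 : ∏ x ∈ B.erase e, φ e x = ∏ x ∈ B.erase e, (x - e) := by
        refine Finset.prod_congr rfl fun x hx => ?_
        rw [hφ]; exact if_neg (Finset.ne_of_mem_erase hx)
      have h3 : ψ e = (aeval e c)⁻¹ := by
        rw [hψ]; exact if_pos h
      have h4 : aeval e (derivative b) ≠ 0 := by
        intro h0
        have := hder e he
        rw [hderB e h, h0, zero_mul] at this
        exact this rfl
      rw [h1, h2, prod_neg, ← hderb e h, hderB e h, h3, (hbz e).2 h, zero_sub]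
      have h5 := hcB e h
      have h6 : B.card = (B.erase e).card + 1 := (Finset.card_erase_add_one h).symm
      rw [h6]
      field_simp
      ring
    · have h2 : ∏ x ∈ B, φ e x = ∏ x ∈ B, (x - e) := by
        refine Finset.prod_congr rfl fun x hx => ?_
        rw [hφ]
        refine if_neg (fun h0 => h ?_)
        rw [← h0]; exact hx
      have h3 : ψ e = 1 := by
        rw [hψ]; exact if_neg h
      rw [h2, prod_neg, h3, hc0 e he h, sub_zero, aeval_prod B b hb e]
      ring
  have hmain : ∀ u : E[X], u.Monic → IsCoprime u f → u ∣ b ^ 2 - f →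
      (∀ e : AlgebraicClosure E, (-1 : AlgebraicClosure E) ^ u.natDegree * aeval e u =
        (-1) ^ b.natDegree * (aeval e b - aeval e c)) →
      ∃ (u v : E[X]) (m : AlgebraicClosure E → AlgebraicClosure E),
        u.Monic ∧ IsCoprime u f ∧ u ∣ v ^ 2 - f ∧
        (∀ (σ : AlgebraicClosure E ≃ₐ[E] AlgebraicClosure E) (e : AlgebraicClosure E),
          aeval e f = 0 → σ (m e) = m (σ e)) ∧
        ∀ e : AlgebraicClosure E, aeval e f = 0 → m e ≠ 0 ∧
          (S.map fun x => if x = e then (aeval e (derivative f))⁻¹ else x - e).prod =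
            m e ^ 2 * ((-1) ^ u.natDegree * aeval e u) := by
    intro u hum huf hud hue
    refine ⟨u, b, fun e => ((half S).map (φ e)).prod * ψ e, hum, huf, hud, ?_, ?_⟩
    · intro σ e he
      show σ (((half S).map (φ e)).prod * ψ e) = ((half S).map (φ (σ e))).prod * ψ (σ e)
      rw [map_mul, hψσ]
      congr 1
      have h1 : (half S).map σ.toEquiv = half S := half_equiv S σ.toEquiv (hσ σ)
      rw [map_multiset_prod, Multiset.map_map]
      conv_rhs => rw [← h1, Multiset.map_map]
      congr 1
      refine Multiset.map_congr rfl fun x _ => ?_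
      exact hφσ σ e x
    · intro e he
      refine ⟨mul_ne_zero ?_ (hψ0 e), ?_⟩
      · intro h0
        rw [Multiset.prod_eq_zero_iff] at h0
        obtain ⟨x, hx, hxe⟩ := Multiset.mem_map.1 h0
        exact hφ0 e he x hxe
      · have h1 : (S.map fun x => if x = e then (aeval e (derivative f))⁻¹ else x - e) =
            S.map (φ e) := by rw [hφ]
        rw [h1, prod_split S (φ e), ← hB, hprod e he, hue e]
        ring
  have hcop1 : IsCoprime (b - c) f := by
    rw [hc]
    refine IsCoprime.mul_right ?_ ?_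
    · obtain ⟨s, t, hst⟩ := hbc
      refine ⟨-t, s + t, ?_⟩
      linear_combination hst
    · obtain ⟨s, t, hst⟩ := hbc
      refine ⟨s, s + t, ?_⟩
      linear_combination hst
  have hdv : b - c ∣ b ^ 2 - f := ⟨b, by rw [hc]; ring⟩
  rcases lt_or_ge c.natDegree b.natDegree with h | h
  · have hd : (b - c).natDegree = b.natDegree := Polynomial.natDegree_sub_eq_left_of_natDegree_lt h
    refine hmain (b - c) ?_ hcop1 hdv ?_
    · exact hbm.sub_of_left (Polynomial.degree_lt_degree h)
    · intro e; rw [hd, map_sub]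
  · have h' : b.natDegree < c.natDegree := by omega
    have hd : (c - b).natDegree = c.natDegree := Polynomial.natDegree_sub_eq_left_of_natDegree_lt h'
    refine hmain (c - b) ?_ ?_ ?_ ?_
    · exact hcm.sub_of_left (Polynomial.degree_lt_degree h')
    · rw [← neg_sub b c]; exact hcop1.neg_left
    · rw [← neg_sub b c]; exact (neg_dvd).2 hdv
    · intro e
      rw [hd, map_sub]
      have h3 : ((-1 : AlgebraicClosure E)) ^ c.natDegree = - (-1) ^ b.natDegree := by
        have h4 : ((-1 : AlgebraicClosure E)) ^ b.natDegree * (-1) ^ c.natDegree = -1 := by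
          rw [← pow_add, hdeg, pow_succ, pow_mul]; simp
        have h5 : ((-1 : AlgebraicClosure E)) ^ b.natDegree * (-1) ^ b.natDegree = 1 := by
          rw [← mul_pow]; simp
        linear_combination (-1 : AlgebraicClosure E) ^ b.natDegree * h4 -
          (-1 : AlgebraicClosure E) ^ c.natDegree * h5
      rw [h3]; ring

end Pool.Agent.Helper82.SZ
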