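import Pool.Agent.Helper82.SZ.Ext

/-!
# CONJ: two places of a finite Galois extension equal on the base field are conjugate (project SZ, helper84)
-/

set_option autoImplicit false
set_option linter.all false

open Polynomial

namespace Pool.Agent.Helper82.SZ

theorem conj_val_div {N C : Type} [Field N] [Field C] (r : Pl N C) {b z : N} {c : C}
    (h1 : r.val b 1) (h2 : r.val (b * z) c) : r.val z c := by
  obtain ⟨hb, h1⟩ := h1
  obtain ⟨hbz, h2⟩ := h2
  have hbi : b⁻¹ ∈ r.W := r.loc ⟨b, hb⟩ (by rw [h1]; exact one_ne_zero)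
  have hb0 : b ≠ 0 := by
    rintro rfl
    have : (⟨0, hb⟩ : r.W) = 0 := rfl
    rw [this, map_zero] at h1
    exact zero_ne_one h1
  have hz : z ∈ r.W := by
    have := r.W.mul_mem _ _ hbi hbz
    rwa [inv_mul_cancel_left₀ hb0] at this
  refine ⟨hz, ?_⟩
  have e : (⟨b * z, hbz⟩ : r.W) = ⟨b, hb⟩ * ⟨z, hz⟩ := rfl
  rw [e, map_mul, h1, one_mul] at h2
  exact h2

/-- every element of the valuation ring is a fraction of two elements which are in all valuation rings above
the base -/
theorem conj_frac {N N' C : Type} [Field N] [Field N'] [Algebra N N'] [Algebra.IsAlgebraic N N'] [Field C]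
    (W : ValuationSubring N) (r : Pl N' C) (hW : ∀ x : N, algebraMap N N' x ∈ r.W ↔ x ∈ W) (z : N')
    (hz : z ∈ r.W) : ∃ b : N', r.val b 1 ∧ ∀ V : ValuationSubring N', (∀ x ∈ W, algebraMap N N' x ∈ V) →
      b ∈ V ∧ b * z ∈ V := by
  obtain ⟨P, hP, ⟨i, hi, hlt⟩, hPz⟩ := ext_poly W z (Algebra.IsAlgebraic.isAlgebraic _)
  set n := P.natDegree with hn
  set a : ℕ → N' := fun j => algebraMap N N' (P.coeff j) with ha
  have hsum : ∑ j ∈ Finset.range (i + (n + 1)), a j * z ^ j = 0 := by
    rw [← hPz, aeval_eq_sum_range' (n := i + (n + 1)) (by omega)]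
    refine Finset.sum_congr rfl fun j _ => ?_
    rw [Algebra.smul_def]
  rw [Finset.sum_range_add] at hsum
  set b : N' := ∑ j ∈ Finset.range (n + 1), a (i + j) * z ^ j with hb
  have hb1 : ∑ j ∈ Finset.range (n + 1), a (i + j) * z ^ (i + j) = b * z ^ i := by
    rw [hb, Finset.sum_mul]
    refine Finset.sum_congr rfl fun j _ => ?_
    rw [pow_add]
    ring
  rw [hb1] at hsum
  have hV : ∀ V : ValuationSubring N', (∀ x ∈ W, algebraMap N N' x ∈ V) → b ∈ V ∧ b * z ∈ V := by
    intro V hV
    have haV : ∀ j, a j ∈ V := fun j => hV _ (hP j)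
    by_cases hzV : z ∈ V
    · have : b ∈ V := by
        rw [hb]
        exact sum_mem fun j _ => V.mul_mem _ _ (haV _) (pow_mem hzV _)
      exact ⟨this, V.mul_mem _ _ this hzV⟩
    · have hz0 : z ≠ 0 := by
        rintro rfl
        exact hzV (zero_mem _)
      have hzi : z⁻¹ ∈ V := (V.mem_or_inv_mem z).resolve_left hzV
      have e1 : b = -∑ j ∈ Finset.range i, a j * z⁻¹ ^ (i - j) := by
        have h2 : b * z ^ i = -∑ j ∈ Finset.range i, a j * z ^ j := by
          rw [eq_neg_iff_add_eq_zero, add_comm]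
          exact hsum
        have h3 : b = (b * z ^ i) * z⁻¹ ^ i := by
          rw [mul_assoc, ← mul_pow, mul_inv_cancel₀ hz0, one_pow, mul_one]
        rw [h3, h2, neg_mul, Finset.sum_mul]
        congr 1
        refine Finset.sum_congr rfl fun j hj => ?_
        have hj' : i = j + (i - j) := by have := Finset.mem_range.1 hj; omega
        have h4 : z⁻¹ ^ i = z⁻¹ ^ j * z⁻¹ ^ (i - j) := by rw [← pow_add, ← hj']
        rw [h4, mul_assoc, ← mul_assoc (z ^ j), ← mul_pow, mul_inv_cancel₀ hz0, one_pow, one_mul]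
      have e2 : b * z = -∑ j ∈ Finset.range i, a j * z⁻¹ ^ (i - j - 1) := by
        rw [e1, neg_mul, Finset.sum_mul]
        congr 1
        refine Finset.sum_congr rfl fun j hj => ?_
        have hj' : i - j = (i - j - 1) + 1 := by have := Finset.mem_range.1 hj; omega
        rw [mul_assoc]
        congr 1
        conv_lhs => rw [hj', pow_succ, mul_assoc, inv_mul_cancel₀ hz0, mul_one]
      constructor
      · rw [e1]
        exact neg_mem (sum_mem fun j _ => V.mul_mem _ _ (haV _) (pow_mem hzi _))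
      · rw [e2]
        exact neg_mem (sum_mem fun j _ => V.mul_mem _ _ (haV _) (pow_mem hzi _))
  refine ⟨b, ?_, hV⟩
  have hWr : ∀ x ∈ W, algebraMap N N' x ∈ r.W := fun x hx => (hW x).2 hx
  have hbr : b ∈ r.W := (hV r.W hWr).1
  have har : ∀ j, a j ∈ r.W := fun j => hWr _ (hP j)
  refine ⟨hbr, ?_⟩
  have e : (⟨b, hbr⟩ : r.W) = ∑ j ∈ Finset.range (n + 1), ⟨a (i + j), har _⟩ * ⟨z, hz⟩ ^ j := by
    apply Subtype.val_injective
    show b = r.W.subtype (∑ j ∈ Finset.range (n + 1), ⟨a (i + j), har _⟩ * ⟨z, hz⟩ ^ j)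
    rw [map_sum]
    rfl
  rw [e, map_sum, Finset.sum_range_succ', Finset.sum_eq_zero, zero_add]
  · rw [map_mul, pow_zero, map_one, mul_one]
    have : (⟨a (i + 0), har _⟩ : r.W) = 1 := by
      apply Subtype.val_injective
      show algebraMap N N' (P.coeff i) = 1
      rw [hi, map_one]
    rw [this, map_one]
  · intro j _
    have h0 : r.ρ ⟨a (i + (j + 1)), har _⟩ = 0 := by
      by_contra hne
      have h1 := r.loc _ hne
      have h2 : (P.coeff (i + (j + 1)))⁻¹ ∈ W := by
        rw [← hW, map_inv₀]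
        exact h1
      have h3 := (W.valuation_le_one_iff _).2 h2
      have h4 := hlt (i + (j + 1)) (by omega)
      have h5 : P.coeff (i + (j + 1)) ≠ 0 := by
        intro h0
        apply hne
        have : (⟨a (i + (j + 1)), har _⟩ : r.W) = 0 := by
          apply Subtype.val_injective
          show algebraMap N N' (P.coeff (i + (j + 1))) = 0
          rw [h0, map_zero]
        rw [this, map_zero]
      have h6 : W.valuation (P.coeff (i + (j + 1))) * W.valuation (P.coeff (i + (j + 1)))⁻¹ = 1 := by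
        rw [← map_mul, mul_inv_cancel₀ h5, map_one]
      have h7 : W.valuation (P.coeff (i + (j + 1))) * W.valuation (P.coeff (i + (j + 1)))⁻¹ < 1 :=
        mul_lt_one_of_lt_of_le h4 h3
      exact absurd h6 h7.ne
    rw [map_mul, h0, zero_mul]

/-- a homomorphism which agrees with another one on the elements fixed by a finite group is a conjugate of it -/
theorem conj_hom {G R L : Type} [Group G] [Finite G] [CommRing R] [MulSemiringAction G R] [Field L]
    (φ ψ : R →+* L) (h : ∀ x : R, (∀ g : G, g • x = x) → φ x = ψ x) :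
    ∃ g : G, ∀ x : R, ψ x = φ (g • x) := by
  classical
  cases nonempty_fintype G
  by_contra hcon
  push Not at hcon
  choose b hb using hcon
  let e : G → ℕ := fun g => (Fintype.equivFin G g : ℕ)
  have he : Function.Injective e := fun g g' hgg => (Fintype.equivFin G).injective (Fin.ext hgg)
  let F : R[X] := ∑ g : G, monomial (e g) (b g)
  have hF : ∀ g, F.coeff (e g) = b g := by
    intro g
    show (∑ g : G, monomial (e g) (b g)).coeff (e g) = b g
    rw [finset_sum_coeff, Finset.sum_eq_single g]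
    · rw [coeff_monomial, if_pos rfl]
    · intro g' _ hg'
      rw [coeff_monomial, if_neg fun h => hg' (he h)]
    · intro hg
      exact absurd (Finset.mem_univ g) hg
  let s : G → R →+* R := fun g => MulSemiringAction.toRingHom G R g
  have hs : ∀ g x, s g x = g • x := fun g x => rfl
  let Q : R[X][X] := ∏ g : G, (X - C (F.map (s g)))
  have hQs : ∀ g : G, Q.map (mapRingHom (s g)) = Q := by
    intro g
    show (∏ g' : G, (X - C (F.map (s g')))).map (mapRingHom (s g)) = ∏ g' : G, (X - C (F.map (s g')))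
    rw [Polynomial.map_prod]
    refine Fintype.prod_equiv (Equiv.mulLeft g) _ _ fun g' => ?_
    rw [Polynomial.map_sub, map_X, map_C, coe_mapRingHom, Polynomial.map_map]
    congr 4
    apply RingHom.ext
    intro x
    show g • g' • x = (g * g') • x
    rw [mul_smul]
  have hQ : Q.map (mapRingHom ψ) = Q.map (mapRingHom φ) := by
    ext m k
    rw [coeff_map, coeff_map, coe_mapRingHom, coe_mapRingHom, coeff_map, coeff_map]
    refine (h _ fun g => ?_).symm
    have h1 := congrArg (fun q => (q.coeff m).coeff k) (hQs g)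
    simp only [coeff_map, coe_mapRingHom] at h1
    exact h1
  have h1 : (Q.map (mapRingHom ψ)).eval (F.map ψ) = 0 := by
    show ((∏ g : G, (X - C (F.map (s g)))).map (mapRingHom ψ)).eval (F.map ψ) = 0
    rw [Polynomial.map_prod, eval_prod]
    refine Finset.prod_eq_zero (Finset.mem_univ 1) ?_
    have : s 1 = RingHom.id R := RingHom.ext fun x => one_smul G x
    rw [this, Polynomial.map_id, Polynomial.map_sub, map_X, map_C, coe_mapRingHom, eval_sub, eval_X,
      eval_C, sub_self]
  rw [hQ] at h1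
  have h2 : ((∏ g : G, (X - C (F.map (s g)))).map (mapRingHom φ)).eval (F.map ψ) = 0 := h1
  rw [Polynomial.map_prod, eval_prod, Finset.prod_eq_zero_iff] at h2
  obtain ⟨g, -, hg⟩ := h2
  rw [Polynomial.map_sub, map_X, map_C, coe_mapRingHom, eval_sub, eval_X, eval_C, sub_eq_zero,
    Polynomial.map_map] at hg
  have h3 := congrArg (fun q => q.coeff (e g)) hg
  simp only [coeff_map, hF] at h3
  exact hb g h3

theorem conj : S_CONJ := by
  intro N N' C _ _ _ _ _ _ _ p q hpq
  haveI : Algebra.IsAlgebraic N N' := inferInstance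
  let W : ValuationSubring N := p.W.comap (algebraMap N N')
  have hWp : ∀ x : N, algebraMap N N' x ∈ p.W ↔ x ∈ W := fun x => Iff.rfl
  have hWq : ∀ x : N, algebraMap N N' x ∈ q.W ↔ x ∈ W := by
    intro x
    constructor
    · intro hx
      exact ((hpq x _).2 ⟨hx, rfl⟩).1
    · intro hx
      exact ((hpq x _).1 ⟨(hWp x).2 hx, rfl⟩).1
  let G := N' ≃ₐ[N] N'
  let R : Subring N' :=
    { carrier := {x | ∀ g : G, g x ∈ p.W ∧ g x ∈ q.W}
      mul_mem' := fun {a b} ha hb g => by
        rw [map_mul]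
        exact ⟨p.W.mul_mem _ _ (ha g).1 (hb g).1, q.W.mul_mem _ _ (ha g).2 (hb g).2⟩
      one_mem' := fun g => by
        rw [map_one]
        exact ⟨p.W.one_mem, q.W.one_mem⟩
      add_mem' := fun {a b} ha hb g => by
        rw [map_add]
        exact ⟨p.W.add_mem _ _ (ha g).1 (hb g).1, q.W.add_mem _ _ (ha g).2 (hb g).2⟩
      zero_mem' := fun g => by
        rw [map_zero]
        exact ⟨p.W.zero_mem, q.W.zero_mem⟩
      neg_mem' := fun {a} ha g => by
        rw [map_neg]
        exact ⟨neg_mem (ha g).1, neg_mem (ha g).2⟩ }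
  have hRg : ∀ (g : G) (x : N'), x ∈ R → g x ∈ R := fun g x hx g' => hx (g' * g)
  have hR1 : ∀ x ∈ R, x ∈ p.W ∧ x ∈ q.W := fun x hx => hx 1
  have hfR : ∀ b : N', (∀ V : ValuationSubring N', (∀ x ∈ W, algebraMap N N' x ∈ V) → b ∈ V) → b ∈ R := by
    intro b hb g
    refine ⟨hb (p.W.comap (g : N' →+* N')) fun x hx => ?_, hb (q.W.comap (g : N' →+* N')) fun x hx => ?_⟩
    · show g (algebraMap N N' x) ∈ p.W
      rw [AlgEquiv.commutes]
      exact (hWp x).2 hx
    · show g (algebraMap N N' x) ∈ q.W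
      rw [AlgEquiv.commutes]
      exact (hWq x).2 hx
  letI : MulSemiringAction G R :=
    { smul := fun g x => ⟨g x.1, hRg g _ x.2⟩
      one_smul := fun x => rfl
      mul_smul := fun g g' x => rfl
      smul_zero := fun g => Subtype.ext (map_zero g)
      smul_add := fun g x y => Subtype.ext (map_add g _ _)
      smul_one := fun g => Subtype.ext (map_one g)
      smul_mul := fun g x y => Subtype.ext (map_mul g _ _) }
  let φ : R →+* C := p.ρ.comp (Subring.inclusion (S := R) (T := p.W.toSubring) fun x hx => (hR1 x hx).1)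
  let ψ : R →+* C := q.ρ.comp (Subring.inclusion (S := R) (T := q.W.toSubring) fun x hx => (hR1 x hx).2)
  obtain ⟨g, hg⟩ := conj_hom (G := G) φ ψ (by
    intro x hx
    obtain ⟨z, hz⟩ : (x : N') ∈ Set.range (algebraMap N N') := by
      have := (IsGalois.mem_range_algebraMap_iff_fixed (F := N) (E := N') (x : N')).2 fun g =>
        congrArg Subtype.val (hx g)
      exact this
    have h1 := (hpq z (φ x)).1 ⟨by rw [hz]; exact (hR1 _ x.2).1, by
      show p.ρ _ = p.ρ _
      congr 1
      exact Subtype.ext hz⟩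
    obtain ⟨h2, h3⟩ := h1
    rw [← h3]
    show q.ρ _ = q.ρ _
    congr 1
    exact Subtype.ext hz)
  have hval : ∀ (x : N') (hx : x ∈ R) (c : C), q.val x c ↔ p.val (g x) c := by
    intro x hx c
    have h1 : ψ ⟨x, hx⟩ = φ (g • ⟨x, hx⟩) := hg ⟨x, hx⟩
    constructor
    · rintro ⟨h, hc⟩
      refine ⟨(hR1 _ (hRg g x hx)).1, ?_⟩
      rw [← hc]
      exact h1.symm
    · rintro ⟨h, hc⟩
      refine ⟨(hR1 _ hx).2, ?_⟩
      rw [← hc]
      exact h1
  have hmul : ∀ (r : Pl N' C) (x y : N') (c d : C), r.val x c → r.val y d → r.val (x * y) (c * d) := by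
    rintro r x y c d ⟨hx, rfl⟩ ⟨hy, rfl⟩
    refine ⟨r.W.mul_mem _ _ hx hy, ?_⟩
    rw [← map_mul]
    rfl
  refine ⟨g, fun z c => ⟨fun hz => ?_, fun hz => ?_⟩⟩
  · obtain ⟨b, hb1, hbV⟩ := conj_frac W q hWq z hz.1
    have hbR : b ∈ R := hfR b fun V hV => (hbV V hV).1
    have hbzR : b * z ∈ R := hfR _ fun V hV => (hbV V hV).2
    have h1 := (hval b hbR 1).1 hb1
    have h2 := (hval (b * z) hbzR (1 * c)).1 (hmul q _ _ _ _ hb1 hz)
    rw [map_mul, one_mul] at h2
    exact conj_val_div p h1 h2
  · obtain ⟨b, hb1, hbV⟩ := conj_frac W p hWp (g z) hz.1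
    have hbR : b ∈ R := hfR b fun V hV => (hbV V hV).1
    have hbzR : b * g z ∈ R := hfR _ fun V hV => (hbV V hV).2
    have hbR' : g⁻¹ b ∈ R := hRg _ _ hbR
    have hbzR' : g⁻¹ (b * g z) ∈ R := hRg _ _ hbzR
    have hgg : ∀ x : N', g (g⁻¹ x) = x := fun x => AlgEquiv.apply_symm_apply g x
    have hgg' : g⁻¹ (g z) = z := AlgEquiv.symm_apply_apply g z
    have h1 := (hval _ hbR' 1).2 (by rw [hgg]; exact hb1)
    have h2 := (hval _ hbzR' (1 * c)).2 (by rw [hgg]; exact hmul p _ _ _ _ hb1 hz)
    rw [map_mul, hgg', one_mul] at h2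
    exact conj_val_div q h1 h2

end Pool.Agent.Helper82.SZ
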