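import Pool.Agent.Helper82.SZ.Aux97

/-!
# Project SZ, module DIV: the Kummer class of a divisor (helper97)
-/

set_option autoImplicit false
set_option linter.all false

open Polynomial
open scoped Classical

namespace Pool.Agent.Helper82.SZ

open A97

theorem div (hL : S_LAG) (hO : S_ODD) (hB : S_BRA) : S_DIV := by
  intro E _ _ f g hfm hfs hfd S hS hσ h γ hγσ hγ
  obtain ⟨S1, hS1⟩ : ∃ S1 : Multiset (AlgebraicClosure E × AlgebraicClosure E),
    S1 = S.filter (fun P => aeval P.1 f ≠ 0) := ⟨_, rfl⟩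
  obtain ⟨S0, hS0⟩ : ∃ S0 : Multiset (AlgebraicClosure E × AlgebraicClosure E),
    S0 = S.filter (fun P => ¬ aeval P.1 f ≠ 0) := ⟨_, rfl⟩
  have hsum : S = S1 + S0 := by
    rw [hS1, hS0, Multiset.filter_add_not]
  have hfσ : ∀ (σ : AlgebraicClosure E ≃ₐ[E] AlgebraicClosure E) (x : AlgebraicClosure E),
      aeval (σ x) f ≠ 0 ↔ aeval x f ≠ 0 := by
    intro σ x
    have h1 : aeval (σ x) f = σ (aeval x f) :=
      Polynomial.aeval_algHom_apply (σ : AlgebraicClosure E →ₐ[E] AlgebraicClosure E) x f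
    rw [h1]
    exact not_congr (map_eq_zero σ)
  have hσ1 : ∀ σ : AlgebraicClosure E ≃ₐ[E] AlgebraicClosure E,
      S1.map (fun P => (σ P.1, σ P.2)) = S1 := by
    intro σ
    rw [hS1]
    conv_rhs => rw [← hσ σ, Multiset.filter_map]
    congr 1
    refine Multiset.filter_congr fun P _ => ?_
    exact (hfσ σ P.1).symm
  have hσ0 : ∀ σ : AlgebraicClosure E ≃ₐ[E] AlgebraicClosure E,
      S0.map (fun P => (σ P.1, σ P.2)) = S0 := by
    intro σ
    rw [hS0]
    conv_rhs => rw [← hσ σ, Multiset.filter_map]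
    congr 1
    refine Multiset.filter_congr fun P _ => ?_
    exact not_congr (hfσ σ P.1).symm
  obtain ⟨p, v, m, hpm, hpf, hpv, hmσ, hm⟩ := hO E f S1
    (fun P hP => by rw [hS1] at hP; exact hS P (Multiset.mem_of_mem_filter hP))
    (fun P hP => by rw [hS1] at hP; exact (Multiset.mem_filter.1 hP).2) hσ1
  obtain ⟨u, w, n, hum, huf, huw, hnσ, hn⟩ := hB E f g hfm hfs hfd (S0.map Prod.fst) (by
      intro x hx
      obtain ⟨P, hP, rfl⟩ := Multiset.mem_map.1 hx
      rw [hS0] at hP
      exact not_not.1 (Multiset.mem_filter.1 hP).2) (by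
      intro σ
      conv_rhs => rw [← hσ0 σ, Multiset.map_map]
      rw [Multiset.map_map]
      rfl)
  obtain ⟨s, hs⟩ := hL E f hfs (fun e => γ e / (m e * n e)) (by
    intro τ e he
    show τ (γ e / (m e * n e)) = γ (τ e) / (m (τ e) * n (τ e))
    rw [map_div₀, map_mul, hγσ τ e he, hmσ τ e he, hnσ τ e he])
  refine ⟨[(p, v), (u, w)], s, ?_, ?_⟩
  · intro q hq
    rcases List.mem_cons.1 hq with rfl | hq
    · exact ⟨hpm, hpf, hpv⟩
    · rw [List.mem_singleton] at hq
      subst hq
      exact ⟨hum, huf, huw⟩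
  · refine dvd_of_zeros f _ hfs fun e he => ?_
    obtain ⟨m0, hme⟩ := hm e he
    obtain ⟨n0, hne⟩ := hn e he
    have h1 := hγ e he
    rw [hsum, Multiset.map_add, Multiset.prod_add] at h1
    have h2 : (S1.map fun P => if P.1 = e then (aeval e (derivative f))⁻¹ else P.1 - e) =
        S1.map fun P => P.1 - e := by
      refine Multiset.map_congr rfl fun P hP => ?_
      rw [hS1] at hP
      refine if_neg fun h0 => (Multiset.mem_filter.1 hP).2 ?_
      rw [h0]; exact he
    have h3 : (S0.map fun P => if P.1 = e then (aeval e (derivative f))⁻¹ else P.1 - e) =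
        (S0.map Prod.fst).map fun x => if x = e then (aeval e (derivative f))⁻¹ else x - e := by
      rw [Multiset.map_map]; rfl
    rw [h2, h3, hme, hne] at h1
    rw [map_sub, map_mul, map_pow, hs e he]
    simp only [List.map_cons, List.map_nil, List.prod_cons, List.prod_nil, mul_one, map_mul,
      map_pow, map_neg, map_one]
    rw [div_pow, h1]
    field_simp
    ring

end Pool.Agent.Helper82.SZ
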