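import Pool.Agent.Helper82.SZ.Kum
import Pool.Agent.Helper82.SY.Loc
import Pool.Graph.R_pool_sql_team_seeded_63374d34.N352.JB.All
import Pool.Graph.R_pool_sql_team_seeded_63374d34.N874.Jac.Def

/-!
# Project SZ (helper82): the fixed field of a section
-/

set_option autoImplicit false
set_option linter.all false

open Polynomial
open scoped Classical

namespace Pool.Agent.Helper82.SZ

open Pool.Agent.TH954 (SAct)
open Pool.Agent.Helper82.SY (root_lift)

section dsc

variable {K M H : Type} [Field K] [CharZero K] [Field M] [Algebra K M] [Field H] [Algebra K H]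
  [Algebra H M] [IsScalarTower K H M] (A : SAct K M)

include A in
/-- The roots of `f` in `M`. -/
theorem splitsM (f : K[X]) : (f.map (algebraMap K M)).Splits := by
  have hsp : (f.map (algebraMap K (AlgebraicClosure K))).Splits := IsAlgClosed.splits _
  have h1 : f.map (algebraMap K M) =
      (f.map (algebraMap K (AlgebraicClosure K))).map (A.j : AlgebraicClosure K →+* M) := by
    rw [Polynomial.map_map]
    congr 1
    exact A.j.comp_algebraMap.symm
  rw [h1]
  exact hsp.map _

theorem rootsM (f : K[X]) : (f.map (algebraMap K M)).roots =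
    (f.map (algebraMap K (AlgebraicClosure K))).roots.map A.j := by
  have hsp : (f.map (algebraMap K (AlgebraicClosure K))).Splits := IsAlgClosed.splits _
  have h1 : f.map (algebraMap K M) =
      (f.map (algebraMap K (AlgebraicClosure K))).map (A.j : AlgebraicClosure K →+* M) := by
    rw [Polynomial.map_map]
    congr 1
    exact A.j.comp_algebraMap.symm
  rw [h1]
  exact hsp.roots_map _

/-- A polynomial which vanishes at the roots is divisible by `f`. -/
theorem dvd_of {f : K[X]} (hm : f.Monic) (hs : f.Separable) {q : H[X]}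
    (h : ∀ θ : AlgebraicClosure K, aeval θ f = 0 → aeval (A.j θ) q = 0) :
    f.map (algebraMap K H) ∣ q := by
  rw [← Polynomial.map_dvd_map' (algebraMap H M), Polynomial.map_map,
    ← IsScalarTower.algebraMap_eq]
  by_cases hq : q = 0
  · rw [hq, Polynomial.map_zero]
    exact dvd_zero _
  have hq0 : q.map (algebraMap H M) ≠ 0 := (Polynomial.map_ne_zero_iff
    (algebraMap H M).injective).2 hq
  refine (splitsM A f).dvd_of_roots_le_roots (hm.map _).ne_zero ?_
  rw [Multiset.le_iff_subset (nodup_roots hs.map)]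
  intro x hx
  rw [mem_roots (hm.map _).ne_zero, IsRoot.def, eval_map_algebraMap] at hx
  obtain ⟨θ, hθ, rfl⟩ := root_lift A.j hm hx
  rw [mem_roots hq0, IsRoot.def, eval_map_algebraMap]
  exact h θ hθ

/-- The action on values. -/
theorem act_aeval (hfix : ∀ τ (z : H), A.s τ (algebraMap H M z) = algebraMap H M z) (q : H[X])
    (τ : AlgebraicClosure K ≃ₐ[K] AlgebraicClosure K) (θ : AlgebraicClosure K) :
    A.s τ (aeval (A.j θ) q) = aeval (A.j (τ θ)) q := by
  have h1 : (q.map (algebraMap H M)).map ((A.s τ : M →ₐ[K] M) : M →+* M) =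
      q.map (algebraMap H M) := by
    rw [Polynomial.map_map]
    congr 1
    exact RingHom.ext fun z => hfix τ z
  have h2 := eval_map_apply (p := q.map (algebraMap H M)) ((A.s τ : M →ₐ[K] M) : M →+* M) (A.j θ)
  have h3 : ((A.s τ : M →ₐ[K] M) : M →+* M) (A.j θ) = A.j (τ θ) := A.hj τ θ
  rw [h1, h3, eval_map_algebraMap, eval_map_algebraMap] at h2
  exact h2.symm

/-- `f` is irreducible over the fixed field. -/
theorem irr_H (hfix : ∀ τ (z : H), A.s τ (algebraMap H M z) = algebraMap H M z) {f : K[X]}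
    (hm : f.Monic) (hirr : Irreducible f) : Irreducible (f.map (algebraMap K H)) := by
  have hs : f.Separable := hirr.separable
  have hfH : ¬ IsUnit (f.map (algebraMap K H)) := by
    intro h
    have h1 := natDegree_eq_zero_of_isUnit h
    rw [hm.natDegree_map] at h1
    exact (hirr.natDegree_pos).ne' h1
  obtain ⟨a, ha, hav⟩ := WfDvdMonoid.exists_irreducible_factor hfH (hm.map _).ne_zero
  have hdvM : a.map (algebraMap H M) ∣ f.map (algebraMap K M) := by
    rw [IsScalarTower.algebraMap_eq K H M, ← Polynomial.map_map]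
    exact (Polynomial.map_dvd_map' (algebraMap H M)).2 hav
  have hsa : (a.map (algebraMap H M)).Splits :=
    (splitsM A f).of_dvd (hm.map _).ne_zero hdvM
  obtain ⟨x, hx⟩ := hsa.exists_eval_eq_zero (by
    rw [degree_map]
    exact (degree_pos_of_irreducible ha).ne')
  have hxf : aeval x f = 0 := by
    obtain ⟨b, hb⟩ := hdvM
    rw [← eval_map_algebraMap, hb, eval_mul, hx, zero_mul]
  obtain ⟨θ₀, hθ₀, rfl⟩ := root_lift A.j hm hxf
  have hmin : minpoly K θ₀ = f := (minpoly.eq_of_irreducible_of_monic hirr hθ₀ hm).symm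
  rw [eval_map_algebraMap] at hx
  have h2 : f.map (algebraMap K H) ∣ a := by
    refine dvd_of A hm hs fun θ hθ => ?_
    obtain ⟨τ, rfl⟩ : ∃ τ : AlgebraicClosure K ≃ₐ[K] AlgebraicClosure K, τ θ₀ = θ := by
      refine minpoly.exists_algEquiv_of_root' (Algebra.IsAlgebraic.isAlgebraic θ₀) ?_
      rw [hmin]
      exact hθ
    rw [← act_aeval A hfix, hx, map_zero]
  exact (associated_of_dvd_dvd hav h2).irreducible ha

/-- Lagrange interpolation and descent. -/
theorem descent (hfix : ∀ τ (z : H), A.s τ (algebraMap H M z) = algebraMap H M z)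
    (hmem : ∀ z : M, (∀ τ, A.s τ z = z) → ∃ y : H, algebraMap H M y = z) {f : K[X]}
    (hm : f.Monic) {γ : AlgebraicClosure K → M}
    (h : ∀ (τ : AlgebraicClosure K ≃ₐ[K] AlgebraicClosure K) (θ : AlgebraicClosure K),
      aeval θ f = 0 → A.s τ (γ θ) = γ (τ θ)) :
    ∃ s : H[X], ∀ θ : AlgebraicClosure K, aeval θ f = 0 → aeval (A.j θ) s = γ θ := by
  obtain ⟨R, hR⟩ : ∃ R : Finset (AlgebraicClosure K),
    R = (f.map (algebraMap K (AlgebraicClosure K))).roots.toFinset := ⟨_, rfl⟩
  have hRm : ∀ e, e ∈ R ↔ aeval e f = 0 := by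
    intro e
    rw [hR, Multiset.mem_toFinset, mem_roots (hm.map _).ne_zero, IsRoot.def, eval_map_algebraMap]
  obtain ⟨s₀, hs₀⟩ : ∃ s₀ : Polynomial M, s₀ = Lagrange.interpolate R A.j γ := ⟨_, rfl⟩
  have hinj : Set.InjOn (A.j : AlgebraicClosure K → M) R := fun a _ b _ hab => A.j.injective hab
  have hdeg : s₀.degree < R.card := by
    rw [hs₀]
    exact Lagrange.degree_interpolate_lt _ hinj
  have hev : ∀ e ∈ R, s₀.eval (A.j e) = γ e := by
    intro e he
    rw [hs₀]
    exact Lagrange.eval_interpolate_at_node γ hinj he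
  have hst : ∀ (τ : AlgebraicClosure K ≃ₐ[K] AlgebraicClosure K) e, τ e ∈ R → e ∈ R := by
    intro τ e he
    rw [hRm] at he ⊢
    have h1 : aeval (τ e) f = τ (aeval e f) :=
      aeval_algHom_apply (τ : AlgebraicClosure K →ₐ[K] AlgebraicClosure K) e f
    rw [h1] at he
    exact (_root_.map_eq_zero τ).1 he
  have hfx : ∀ τ, s₀.map ((A.s τ : M →ₐ[K] M) : M →+* M) = s₀ := by
    intro τ
    refine Polynomial.eq_of_degrees_lt_of_eval_index_eq R (v := A.j) hinj ?_ hdeg ?_
    · rw [degree_map_eq_of_injective (RingHom.injective _)]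
      exact hdeg
    · intro e he
      obtain ⟨e', rfl⟩ := τ.surjective e
      have he' : e' ∈ R := hst τ e' he
      have h2 : eval (A.s τ (A.j e')) (s₀.map ((A.s τ : M →ₐ[K] M) : M →+* M)) =
          A.s τ (eval (A.j e') s₀) :=
        Polynomial.eval_map_apply ((A.s τ : M →ₐ[K] M) : M →+* M) (A.j e')
      rw [A.hj] at h2
      rw [h2, hev e' he', hev _ he]
      exact h τ e' ((hRm e').1 he')
  have hl : s₀ ∈ lifts (algebraMap H M) := by
    rw [lifts_iff_coeff_lifts]
    intro n
    obtain ⟨y, hy⟩ := hmem (s₀.coeff n) fun τ => by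
      have h3 := congrArg (fun p => p.coeff n) (hfx τ)
      simp only [coeff_map] at h3
      exact h3
    exact ⟨y, hy⟩
  obtain ⟨s, hs⟩ := hl
  refine ⟨s, fun e he => ?_⟩
  have hs' : s.map (algebraMap H M) = s₀ := hs
  rw [← eval_map_algebraMap, hs', hev e ((hRm e).2 he)]

/-- The norm of the class of a divisor. -/
theorem normH {f : K[X]} (hm : f.Monic) (ho : Odd f.natDegree) {p c : H[X]} (hpm : p.Monic)
    (hpc : p ∣ c ^ 2 - f.map (algebraMap K H)) :
    ∃ y : H, ((f.map (algebraMap K (AlgebraicClosure K))).roots.map fun θ =>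
      (-1) ^ p.natDegree * aeval (A.j θ) p).prod = algebraMap H M y ^ 2 := by
  have e1 : (f.map (algebraMap K H)).map (algebraMap H M) = f.map (algebraMap K M) := by
    rw [Polynomial.map_map, ← IsScalarTower.algebraMap_eq]
  obtain ⟨y, hy⟩ := Pool.Agent.N27.JB.Lpn.lpn H M (f.map (algebraMap K H)) (hm.map _)
    (by rw [hm.natDegree_map]; exact ho) (by rw [e1]; exact splitsM A f) {p} (fun q hq => by
      rw [Multiset.mem_singleton] at hq
      rw [hq]
      refine ⟨hpm, c, ?_⟩
      rw [← neg_sub]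
      exact (dvd_neg).2 hpc)
  refine ⟨y, ?_⟩
  rw [← map_pow, ← hy, e1, rootsM A f, Multiset.map_map]
  congr 1
  refine Multiset.map_congr rfl fun θ _ => ?_
  rw [Function.comp_apply, Multiset.map_singleton, Multiset.prod_singleton, map_mul, map_pow,
    map_neg, map_one]

/-- The only place. -/
inductive PlId (H : Type) [Field H] : ∀ (E : Type) [Field E] [Algebra H E], Prop
  | self : @PlId H _ H _ (Algebra.id H)

/-- **Unique divisibility.** -/
theorem uniq {f : H[X]} (hm : f.Monic) (hirr : Irreducible f) (hs : f.Separable)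
    (ho : Odd f.natDegree) (h2 : (2 : H) ≠ 0)
    (hcl : ∀ p c : H[X], p.Monic → IsCoprime p f → p ∣ c ^ 2 - f →
      ∃ t : H[X], f ∣ (-1) ^ p.natDegree * p - t ^ 2) :
    Pool.Agent.N874.Jac.UniquelyTwoDivisible f := by
  refine Pool.Agent.N874.Jac.div_of _ (Pool.Agent.N352.JB.ptsT H _ h2 hm hirr hs ho
    (fun E _ _ => PlId H E) ?_)
  intro h hcop _ hloc
  obtain ⟨l, s, h1, h3⟩ := hloc H PlId.self
  have e1 : ∀ q : H[X], q.map (@algebraMap H H _ _ (Algebra.id H)) = q := fun q => by
    rw [Algebra.algebraMap_self, Polynomial.map_id]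
  rw [e1 f] at h1
  rw [e1 f, e1 h] at h3
  -- the product of the list
  obtain ⟨T, hT, hTc⟩ : ∃ T : H[X], f ∣ (l.map fun p => (-1) ^ p.1.natDegree * p.1).prod - T ^ 2 ∧
      IsCoprime f T := by
    clear h3
    induction l with
    | nil => exact ⟨1, by simp, isCoprime_one_right⟩
    | cons q l ih =>
      obtain ⟨T, hT, hTc⟩ := ih fun p hp => h1 p (List.mem_cons_of_mem q hp)
      obtain ⟨a1, a2, a3⟩ := h1 q List.mem_cons_self
      obtain ⟨t, ht⟩ := hcl q.1 q.2 a1 a2 a3
      refine ⟨t * T, ?_, ?_⟩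
      · rw [List.map_cons, List.prod_cons]
        have e : (-1) ^ q.1.natDegree * q.1 * (l.map fun p => (-1) ^ p.1.natDegree * p.1).prod -
            (t * T) ^ 2 = ((-1) ^ q.1.natDegree * q.1 - t ^ 2) *
              (l.map fun p => (-1) ^ p.1.natDegree * p.1).prod +
            t ^ 2 * ((l.map fun p => (-1) ^ p.1.natDegree * p.1).prod - T ^ 2) := by ring
        rw [e]
        exact dvd_add (ht.mul_right _) (hT.mul_left _)
      · refine IsCoprime.mul_right ((hirr.coprime_iff_not_dvd).2 fun hd => ?_) hTc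
        have h4 : f ∣ (-1) ^ q.1.natDegree * q.1 := by
          have h5 : f ∣ t ^ 2 := hd.trans (dvd_pow_self t two_ne_zero)
          have h6 := dvd_add ht h5
          rwa [sub_add_cancel] at h6
        have h7 : f ∣ q.1 := by
          have h8 := h4.mul_left ((-1) ^ q.1.natDegree)
          rwa [← mul_assoc, ← mul_pow, neg_one_mul, neg_neg, one_pow, one_mul] at h8
        exact hirr.not_isUnit (a2.symm.isUnit_of_dvd' dvd_rfl h7)
  obtain ⟨a, b, hab⟩ := hTc
  refine ⟨s * b, ?_⟩
  have e : h - (s * b) ^ 2 = b ^ 2 * (h * (l.map fun p => (-1) ^ p.1.natDegree * p.1).prod - s ^ 2)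
      - b ^ 2 * h * ((l.map fun p => (-1) ^ p.1.natDegree * p.1).prod - T ^ 2) +
      h * (1 - (b * T)) * (1 + b * T) := by ring
  rw [e]
  refine dvd_add (dvd_sub (h3.mul_left _) (hT.mul_left _)) ?_
  have e2 : 1 - b * T = a * f := by rw [← hab]; ring
  rw [e2]
  exact ⟨h * a * (1 + b * T), by ring⟩

end dsc

end Pool.Agent.Helper82.SZ
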