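import Pool.Agent.Helper82.SZ.Base

/-!
# EXT: extension of places to algebraic extensions (project SZ, helper84)
-/

set_option autoImplicit false
set_option linter.all false

open Polynomial

namespace Pool.Agent.Helper82.SZ

/-- An algebraic element is a zero of a polynomial over the valuation ring with a coefficient one, the higher
ones being nonunits. -/
theorem ext_poly {N N' : Type} [Field N] [Field N'] [Algebra N N'] (W : ValuationSubring N) (z : N')
    (hz : IsAlgebraic N z) : ∃ P : N[X], (∀ j, P.coeff j ∈ W) ∧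
      (∃ i, P.coeff i = 1 ∧ ∀ j, i < j → W.valuation (P.coeff j) < 1) ∧ aeval z P = 0 := by
  classical
  obtain ⟨P, hP, hPz⟩ := hz
  set T := P.support.filter fun i => ∀ j ∈ P.support, W.valuation (P.coeff j) ≤ W.valuation (P.coeff i)
    with hT
  have hTn : T.Nonempty := by
    obtain ⟨i, hi, h⟩ := Finset.exists_max_image P.support (fun i => W.valuation (P.coeff i))
      (Polynomial.support_nonempty.2 hP)
    exact ⟨i, Finset.mem_filter.2 ⟨hi, h⟩⟩
  set i := T.max' hTn with hi
  have hiT : i ∈ T := T.max'_mem hTn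
  obtain ⟨hiS, hmax⟩ := Finset.mem_filter.1 hiT
  have hi0 : P.coeff i ≠ 0 := Polynomial.mem_support_iff.1 hiS
  have hv0 : W.valuation (P.coeff i) ≠ 0 := (Valuation.ne_zero_iff _).2 hi0
  have hall : ∀ j, W.valuation (P.coeff j) ≤ W.valuation (P.coeff i) := by
    intro j
    by_cases hj : j ∈ P.support
    · exact hmax j hj
    · rw [Polynomial.notMem_support_iff.1 hj, map_zero]
      exact zero_le'
  have hlt : ∀ j, i < j → W.valuation (P.coeff j) < W.valuation (P.coeff i) := by
    intro j hj
    by_contra hcon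
    have he : W.valuation (P.coeff j) = W.valuation (P.coeff i) := le_antisymm (hall j) (not_lt.1 hcon)
    have hjS : j ∈ P.support := by
      rw [Polynomial.mem_support_iff]
      intro h0
      rw [h0, map_zero] at he
      exact hv0 he.symm
    have hjT : j ∈ T := Finset.mem_filter.2 ⟨hjS, fun k hk => by rw [he]; exact hmax k hk⟩
    exact absurd (T.le_max' j hjT) (not_le.2 hj)
  have hco : ∀ j, (C (P.coeff i)⁻¹ * P).coeff j = (P.coeff i)⁻¹ * P.coeff j := fun j =>
    Polynomial.coeff_C_mul _
  have hvi : W.valuation (P.coeff i)⁻¹ = (W.valuation (P.coeff i))⁻¹ := map_inv₀ _ _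
  refine ⟨C (P.coeff i)⁻¹ * P, fun j => ?_, ⟨i, ?_, fun j hj => ?_⟩, ?_⟩
  · rw [← W.valuation_le_one_iff, hco, map_mul, hvi, ← inv_mul_cancel₀ hv0]
    exact mul_le_mul_right (hall j) _
  · rw [hco, inv_mul_cancel₀ hi0]
  · rw [hco, map_mul, hvi, ← inv_mul_cancel₀ hv0]
    exact mul_lt_mul_of_pos_left (hlt j hj) (by simpa [zero_lt_iff] using hv0)
  · rw [map_mul, hPz, mul_zero]

theorem ext_local {N C : Type} [Field N] [Field C] (p : Pl N C) : IsLocalHom p.ρ := by
  refine ⟨fun x hx => ?_⟩
  have h := p.loc x hx.ne_zero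
  have hx0 : (x : N) ≠ 0 := by
    rintro h0
    have : x = 0 := Subtype.ext h0
    rw [this, map_zero] at hx
    exact not_isUnit_zero hx
  exact isUnit_iff_exists_inv.2 ⟨⟨_, h⟩, Subtype.ext (mul_inv_cancel₀ hx0)⟩

theorem ext : S_EXT := by
  intro N N' C _ _ _ _ _ _ p
  haveI := ext_local p
  let f : p.W →+* N' := (algebraMap N N').comp p.W.subtype
  obtain ⟨A, hA, hloc⟩ := IsLocalRing.exists_factor_valuationRing f
  letI : Algebra p.W A := (f.codRestrict A.toSubring hA).toAlgebra
  haveI : IsLocalHom (algebraMap p.W A) := hloc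
  letI : Algebra (IsLocalRing.ResidueField p.W) C := (IsLocalRing.ResidueField.lift p.ρ).toAlgebra
  haveI halg : Algebra.IsAlgebraic (IsLocalRing.ResidueField p.W) (IsLocalRing.ResidueField A) := by
    refine ⟨fun x => ?_⟩
    obtain ⟨z, rfl⟩ := IsLocalRing.residue_surjective x
    obtain ⟨P, hP, ⟨i, hi, -⟩, hPz⟩ := ext_poly p.W (z : N') (Algebra.IsAlgebraic.isAlgebraic _)
    obtain ⟨P', rfl⟩ : ∃ P' : p.W[X], P'.map p.W.subtype = P := by
      have := (Polynomial.lifts_iff_coeff_lifts (f := p.W.subtype) P).2 fun n => ⟨⟨_, hP n⟩, rfl⟩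
      exact (Polynomial.mem_lifts P).1 this
    have h1 : eval₂ (algebraMap p.W A) z P' = 0 := by
      apply Subtype.val_injective
      show A.subtype (eval₂ (algebraMap p.W A) z P') = 0
      have e : A.subtype.comp (algebraMap p.W A) = (algebraMap N N').comp p.W.subtype := rfl
      rw [hom_eval₂, e, ← eval₂_map]
      exact hPz
    have hi' : P'.coeff i = 1 := by
      apply Subtype.val_injective
      have := hi
      rw [coeff_map] at this
      exact this
    refine ⟨P'.map (IsLocalRing.residue p.W), ?_, ?_⟩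
    · intro h0
      have h2 := congrArg (fun q => q.coeff i) h0
      simp only [coeff_map, hi', map_one, coeff_zero] at h2
      exact one_ne_zero h2
    · have e : (algebraMap (IsLocalRing.ResidueField p.W) (IsLocalRing.ResidueField A)).comp
          (IsLocalRing.residue p.W) = (IsLocalRing.residue A).comp (algebraMap p.W A) := rfl
      rw [aeval_def, eval₂_map, e, ← hom_eval₂, h1, map_zero]
  let g : IsLocalRing.ResidueField A →ₐ[IsLocalRing.ResidueField p.W] C := IsAlgClosed.lift
  have hg : ∀ w : p.W, g (IsLocalRing.residue A (algebraMap p.W A w)) = p.ρ w := by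
    intro w
    have h1 : g (algebraMap (IsLocalRing.ResidueField p.W) (IsLocalRing.ResidueField A)
        (IsLocalRing.residue p.W w)) = algebraMap (IsLocalRing.ResidueField p.W) C
        (IsLocalRing.residue p.W w) := g.commutes _
    exact h1
  let ρ' : A →+* C := (g : IsLocalRing.ResidueField A →+* C).comp (IsLocalRing.residue A)
  have hl : ∀ x : A, ρ' x ≠ 0 → (x : N')⁻¹ ∈ A := by
    intro x hx
    have hx1 : IsLocalRing.residue A x ≠ 0 := by
      intro h
      apply hx
      show g (IsLocalRing.residue A x) = 0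
      rw [h, map_zero]
    have hx2 : IsUnit x := (IsLocalRing.residue_ne_zero_iff_isUnit x).1 hx1
    obtain ⟨y, hy⟩ := isUnit_iff_exists_inv.1 hx2
    have hy' : (x : N') * (y : N') = 1 := congrArg Subtype.val hy
    rw [inv_eq_of_mul_eq_one_right hy']
    exact y.2
  refine ⟨⟨A, ρ', hl⟩, fun z c => ⟨?_, ?_⟩⟩
  · rintro ⟨h, hc⟩
    have hz : z ∈ p.W := by
      by_contra hz
      have hz0 : z ≠ 0 := by
        rintro rfl
        exact hz (zero_mem _)
      have hzi : z⁻¹ ∈ p.W := (p.W.mem_or_inv_mem z).resolve_left hz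
      have hu : IsUnit (algebraMap p.W A ⟨z⁻¹, hzi⟩) := by
        refine isUnit_iff_exists_inv.2 ⟨⟨_, h⟩, Subtype.ext ?_⟩
        show algebraMap N N' z⁻¹ * algebraMap N N' z = 1
        rw [← map_mul, inv_mul_cancel₀ hz0, map_one]
      have hu2 : IsUnit (⟨z⁻¹, hzi⟩ : p.W) := IsUnit.of_map (algebraMap p.W A) _ hu
      obtain ⟨y, hy⟩ := isUnit_iff_exists_inv.1 hu2
      have hy' : z⁻¹ * (y : N) = 1 := congrArg Subtype.val hy
      have : (y : N) = z := by
        rw [inv_mul_eq_one₀ hz0] at hy'
        exact hy'.symm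
      exact hz (this ▸ y.2)
    exact ⟨hz, (hg ⟨z, hz⟩).symm.trans hc⟩
  · rintro ⟨h, hc⟩
    exact ⟨hA ⟨z, h⟩, (hg ⟨z, h⟩).trans hc⟩

end Pool.Agent.Helper82.SZ
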