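import Pool.Agent.Helper82.SZ.Base

/-!
# Project SZ, module FIX: a finite Galois stable set is the set of zeros of a separable polynomial
(helper97)
-/

set_option autoImplicit false
set_option linter.all false

open Polynomial
open scoped Classical

namespace Pool.Agent.Helper82.SZ

theorem fix : S_FIX := by
  intro E _ _ T hT
  have hperf : IsGalois E (AlgebraicClosure E) := inferInstance
  set P : (AlgebraicClosure E)[X] := ∏ x ∈ T, (X - C x) with hP
  have himg : ∀ σ : AlgebraicClosure E ≃ₐ[E] AlgebraicClosure E, T.image σ = T := by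
    intro σ
    refine Finset.eq_of_subset_of_card_le (fun y hy => ?_) ?_
    · obtain ⟨x, hx, rfl⟩ := Finset.mem_image.1 hy
      exact hT σ x hx
    · rw [Finset.card_image_of_injective _ σ.injective]
  have hmap : ∀ σ : AlgebraicClosure E ≃ₐ[E] AlgebraicClosure E,
      P.map (σ : AlgebraicClosure E →+* AlgebraicClosure E) = P := by
    intro σ
    rw [hP, Polynomial.map_prod]
    simp only [Polynomial.map_sub, Polynomial.map_X, Polynomial.map_C]
    conv_rhs => rw [← himg σ]
    rw [Finset.prod_image (fun a _ b _ h => σ.injective h)]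
    rfl
  have hmon : P.Monic := monic_prod_of_monic _ _ fun x _ => monic_X_sub_C x
  have hl : P ∈ Polynomial.lifts (algebraMap E (AlgebraicClosure E)) := by
    rw [Polynomial.lifts_iff_coeff_lifts]
    intro n
    rw [InfiniteGalois.mem_range_algebraMap_iff_fixed]
    intro σ
    have h1 := congrArg (fun q => q.coeff n) (hmap σ)
    simp only [Polynomial.coeff_map] at h1
    exact h1
  obtain ⟨p, hp, hpd, hpm⟩ := Polynomial.lifts_and_natDegree_eq_and_monic hl hmon
  have hsep : P.Separable := by
    rw [hP]
    exact Polynomial.separable_prod_X_sub_C_iff'.2 (fun x _ y _ h => h)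
  refine ⟨p, hpm, ?_, ?_, hp⟩
  · rw [← Polynomial.separable_map (algebraMap E (AlgebraicClosure E)), hp]
    exact hsep
  · rw [hpd, hP, Polynomial.natDegree_prod_of_monic _ _ (fun x _ => monic_X_sub_C x)]
    simp

end Pool.Agent.Helper82.SZ
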