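import Pool.Agent.Helper82.SZ.Aux97

/-!
# Project SZ, module ODD: Galois stable multisets of points of `y ^ 2 = f(x)` (helper97)
-/

set_option autoImplicit false
set_option linter.all false

open Polynomial
open scoped Classical

namespace Pool.Agent.Helper82.SZ

open A97

theorem odd (hF : S_FIX) (hL : S_LAG) : S_ODD := by
  intro E _ _ f S hS hS0 hσ
  obtain ⟨S1, hS1⟩ : ∃ S1 : Multiset (AlgebraicClosure E), S1 = S.map Prod.fst := ⟨_, rfl⟩
  obtain ⟨T, hT⟩ : ∃ T : Finset (AlgebraicClosure E), T = odds S1 := ⟨_, rfl⟩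
  -- the Galois action on pairs
  let pr : ((AlgebraicClosure E) ≃ₐ[E] (AlgebraicClosure E)) → ((AlgebraicClosure E) × (AlgebraicClosure E) ≃ (AlgebraicClosure E) × (AlgebraicClosure E)) := fun σ => Equiv.prodCongr σ.toEquiv σ.toEquiv
  have hpr : ∀ (σ : (AlgebraicClosure E) ≃ₐ[E] (AlgebraicClosure E)), S.map (pr σ) = S := fun σ => hσ σ
  have hS1σ : ∀ σ : (AlgebraicClosure E) ≃ₐ[E] (AlgebraicClosure E), S1.map σ.toEquiv = S1 := by
    intro σ
    conv_rhs => rw [hS1, ← hpr σ, Multiset.map_map]
    rw [hS1, Multiset.map_map]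
    rfl
  have hcσ : ∀ (σ : (AlgebraicClosure E) ≃ₐ[E] (AlgebraicClosure E)) (x y : (AlgebraicClosure E)), S.count (σ x, σ y) = S.count (x, y) := by
    intro σ x y
    have h1 := Multiset.count_map_eq_count' (pr σ) S (pr σ).injective (x, y)
    rw [hpr σ] at h1
    exact h1
  -- the two points over `x`
  have hcount : ∀ x y : (AlgebraicClosure E), y ^ 2 = aeval x f → aeval x f ≠ 0 →
      S1.count x = S.count (x, y) + S.count (x, -y) := by
    intro x y hy h0
    have hy0 : y ≠ 0 := by
      intro h; rw [h] at hy; apply h0; rw [← hy]; ring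
    have hne : (x, y) ≠ (x, -y) := by
      intro h
      have h1 : y = -y := (Prod.mk.inj h).2
      exact hy0 (self_eq_neg.1 h1)
    have key : ∀ R : Multiset ((AlgebraicClosure E) × (AlgebraicClosure E)), (∀ P ∈ R, P.2 ^ 2 = aeval P.1 f) →
        (R.map Prod.fst).count x = R.count (x, y) + R.count (x, -y) := by
      intro R
      induction R using Multiset.induction_on with
      | empty => intro _; simp
      | cons P R ih =>
        intro hR
        have h1 := ih fun Q hQ => hR Q (Multiset.mem_cons_of_mem hQ)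
        have h2 := hR P (Multiset.mem_cons_self P R)
        rw [Multiset.map_cons, Multiset.count_cons, Multiset.count_cons, Multiset.count_cons, h1]
        have h3 : (if x = P.1 then 1 else 0 : ℕ) =
            (if (x, y) = P then 1 else 0) + (if (x, -y) = P then 1 else 0) := by
          by_cases hx : x = P.1
          · have h4 : P.2 = y ∨ P.2 = -y := by
              apply sq_eq_sq_iff_eq_or_eq_neg.1
              rw [h2, ← hx, hy]
            rw [if_pos hx]
            rcases h4 with h4 | h4
            · have h5 : (x, y) = P := by rw [hx, ← h4]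
              have h6 : (x, -y) ≠ P := fun h => hne (h5.trans h.symm)
              rw [if_pos h5, if_neg h6]
            · have h5 : (x, -y) = P := by rw [hx, ← h4]
              have h6 : (x, y) ≠ P := fun h => hne (h.trans h5.symm)
              rw [if_neg h6, if_pos h5]
          · have h5 : (x, y) ≠ P := fun h => hx (by rw [← h])
            have h6 : (x, -y) ≠ P := fun h => hx (by rw [← h])
            rw [if_neg hx, if_neg h5, if_neg h6]
        rw [h3]; ring
    rw [hS1]; exact key S hS
  have hmemT : ∀ x ∈ T, aeval x f ≠ 0 := by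
    intro x hx
    have h1 : x ∈ S1 := Multiset.count_pos.1 ((mem_odds S1 x).1 (hT ▸ hx)).pos
    rw [hS1] at h1
    obtain ⟨P, hP, rfl⟩ := Multiset.mem_map.1 h1
    exact hS0 P hP
  -- the odd point over `x`
  have hex : ∀ x ∈ T, ∃ y : (AlgebraicClosure E), y ^ 2 = aeval x f ∧ Odd (S.count (x, y)) ∧
      ∀ z : (AlgebraicClosure E), Odd (S.count (x, z)) → z = y := by
    intro x hx
    have h0 := hmemT x hx
    obtain ⟨y, hy⟩ := IsAlgClosed.exists_pow_nat_eq (aeval x f : (AlgebraicClosure E)) (n := 2) (by norm_num)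
    have h1 := (mem_odds S1 x).1 (hT ▸ hx)
    rw [hcount x y hy h0, Nat.odd_add] at h1
    have hz : ∀ z : (AlgebraicClosure E), Odd (S.count (x, z)) → z = y ∨ z = -y := by
      intro z hz
      have h2 : (x, z) ∈ S := Multiset.count_pos.1 hz.pos
      have h3 := hS _ h2
      simp only at h3
      exact sq_eq_sq_iff_eq_or_eq_neg.1 (h3.trans hy.symm)
    by_cases hodd : Odd (S.count (x, y))
    · refine ⟨y, hy, hodd, fun z hz1 => ?_⟩
      rcases hz z hz1 with h | h
      · exact h
      · exfalso
        rw [h] at hz1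
        have := h1.1 hodd
        exact (Nat.not_even_iff_odd.2 hz1) this
    · have hodd' : Odd (S.count (x, -y)) := by
        by_contra h
        rw [Nat.not_odd_iff_even] at h
        exact hodd (h1.2 h)
      refine ⟨-y, by rw [neg_sq, hy], hodd', fun z hz1 => ?_⟩
      rcases hz z hz1 with h | h
      · exfalso
        rw [h] at hz1
        exact hodd hz1
      · exact h
  let γ : (AlgebraicClosure E) → (AlgebraicClosure E) := fun x => if h : x ∈ T then (hex x h).choose else 0
  have hγ : ∀ x ∈ T, γ x ^ 2 = aeval x f ∧ Odd (S.count (x, γ x)) ∧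
      ∀ z : (AlgebraicClosure E), Odd (S.count (x, z)) → z = γ x := by
    intro x hx
    have : γ x = (hex x hx).choose := dif_pos hx
    rw [this]
    exact (hex x hx).choose_spec
  have hTσ : ∀ (σ : (AlgebraicClosure E) ≃ₐ[E] (AlgebraicClosure E)), ∀ x ∈ T, σ x ∈ T := by
    intro σ x hx
    rw [hT, mem_odds] at hx ⊢
    have := count_equiv S1 σ.toEquiv (hS1σ σ) x
    have h2 : S1.count (σ x) = S1.count x := this
    rw [h2]; exact hx
  obtain ⟨p, hpm, hps, hpd, hp⟩ := hF E T hTσ
  obtain ⟨v, hv⟩ := hL E p hps γ (by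
    intro τ e he
    have heT : e ∈ T := (aeval_prod_zero T p hp e).1 he
    have h1 := hγ e heT
    have h2 := hγ (τ e) (hTσ τ e heT)
    refine h2.2.2 _ ?_
    rw [hcσ]
    exact h1.2.1)
  refine ⟨p, v, fun e => ((half S1).map fun x => x - e).prod, hpm, ?_, ?_, ?_, ?_⟩
  · exact coprime_of_zeros p f fun e he => hmemT e ((aeval_prod_zero T p hp e).1 he)
  · refine dvd_of_zeros p _ hps fun e he => ?_
    have heT : e ∈ T := (aeval_prod_zero T p hp e).1 he
    rw [map_sub, map_pow, hv e he, (hγ e heT).1, sub_self]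
  · intro σ e he
    have h1 := half_equiv S1 σ.toEquiv (hS1σ σ)
    show σ (((half S1).map fun x => x - e).prod) = ((half S1).map fun x => x - σ e).prod
    rw [map_multiset_prod, Multiset.map_map]
    conv_rhs => rw [← h1, Multiset.map_map]
    congr 1
    refine Multiset.map_congr rfl fun x _ => ?_
    show σ (x - e) = σ x - σ e
    rw [map_sub]
  · intro e he
    refine ⟨?_, ?_⟩
    · intro h0
      rw [Multiset.prod_eq_zero_iff] at h0
      obtain ⟨x, hx, hxe⟩ := Multiset.mem_map.1 h0
      have hx1 : x ∈ S1 := mem_half S1 x hx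
      rw [hS1] at hx1
      obtain ⟨P, hP, rfl⟩ := Multiset.mem_map.1 hx1
      rw [sub_eq_zero] at hxe
      apply hS0 P hP
      rw [hxe]; exact he
    · have h1 : (S.map fun P => P.1 - e) = S1.map (fun x => x - e) := by
        rw [hS1, Multiset.map_map]; rfl
      rw [h1, prod_split S1 (fun x => x - e), hpd, aeval_prod T p hp e, ← prod_neg T e, ← hT]

end Pool.Agent.Helper82.SZ
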