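import Pool.Graph.R_pool_sql_team_seeded_63374d34.N874.Jac.Def

/-!
# Project SZ (helper82): points of the Jacobian over an extension field
-/

set_option autoImplicit false
set_option linter.all false

open Polynomial
open scoped Classical

namespace Pool.Agent.Helper82.SZ

open Pool.Agent.N874.Jac (J mapJ UniquelyTwoDivisible)

section trn

variable {K H : Type} [Field K] [Field H] [Algebra K H]

theorem pic_congr {P P' : H[X]} (h : P = P')
    (hP : Function.Bijective fun Q : CommRing.Pic (AdjoinRoot (X ^ 2 - C P : H[X][X])) => Q ^ 2) :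
    Function.Bijective fun Q : CommRing.Pic (AdjoinRoot (X ^ 2 - C P' : H[X][X])) => Q ^ 2 := by
  subst h
  exact hP

/-- Points of the Jacobian over the extension `H`. -/
theorem uniq_ext {f : K[X]} (h : UniquelyTwoDivisible (f.map (algebraMap K H))) :
    Function.Bijective fun P : J f H => P ^ 2 := by
  refine pic_congr (P := (f.map (algebraMap K H)).map (algebraMap H H))
    (P' := f.map (algebraMap K H)) ?_ h
  rw [Algebra.algebraMap_self, Polynomial.map_id]

/-- Division by powers of two. -/
theorem roots_ext {G G' : Type} [CommGroup G] [CommGroup G'] (φ : G →* G')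
    (h : Function.Bijective fun P : G' => P ^ 2) (n : ℕ) (D : G) : ∃! E : G', E ^ 2 ^ n = φ D := by
  have h1 : ∀ n : ℕ, Function.Bijective fun P : G' => P ^ 2 ^ n := by
    intro n
    induction n with
    | zero =>
      have h2 : (fun P : G' => P ^ 2 ^ 0) = id := by
        funext P
        rw [pow_zero, pow_one, id]
      rw [h2]
      exact Function.bijective_id
    | succ n ih =>
      have h2 : (fun P : G' => P ^ 2 ^ (n + 1)) = (fun P : G' => P ^ 2) ∘ fun P : G' => P ^ 2 ^ n := by
        funext P
        rw [Function.comp_apply, ← pow_mul, pow_succ]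
      rw [h2]
      exact h.comp ih
  obtain ⟨E, hE⟩ := (h1 n).2 (φ D)
  exact ⟨E, hE, fun E' hE' => (h1 n).1 (hE'.trans hE.symm)⟩

end trn

end Pool.Agent.Helper82.SZ
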