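import Pool.Agent.Helper82.SZ.Hlf
import Pool.Agent.Helper82.SZ.Conj
import Pool.Agent.Helper82.SZ.Fix
import Pool.Agent.Helper82.SZ.Odd
import Pool.Agent.Helper82.SZ.Bra
import Pool.Agent.Helper82.SZ.Div
import Pool.Agent.Helper82.SZ.Trn

/-!
# Project SZ (helper82): the Jacobian over the fixed field of a section, over the fields of the class
-/

set_option autoImplicit false
set_option linter.all false

open Polynomial IsDedekindDomain NumberField
open scoped Classical

namespace Pool.Agent.Helper82.SZ

open Pool.Agent.TH954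
open Pool.Agent.W620.SC (unramified)
open Pool.Agent.N783.PF (fF rd)
open Pool.Agent.N874.TF (fM)
open Pool.Agent.N874.QM (SelM)
open Pool.Agent.N874.Jac (J mapJ UniquelyTwoDivisible)

theorem lag : S_LAG := fun E _ _ f hf γ h =>
  Pool.Agent.N615.JB.lag0 E (AlgebraicClosure E) f hf γ h

theorem divT : S_DIV := div lag (odd fix lag) (bra fix)

section main

variable {F M : Type} [Field F] [NumberField F] [Field M] [NumberField M] [Algebra F M]

/-- **Unique divisibility by two over the fixed field of a section.** -/
theorem half_fin [IsGalois F M] {n : ℕ} (hM : Module.finrank F M = 2 ^ n) {f : (𝓞 F)[X]} {g : ℕ}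
    (hm : f.Monic) (hd : f.natDegree = 2 * g + 1)
    (hirr : Irreducible (fF f)) (hsel : SelM M (fM M f))
    (hmo : Pool.Agent.Helper82.TU.MonoF f)
    {L Ω N B : Type} [Field L] [Field Ω] [Field N]
    [Field B] [Algebra M L] [Algebra L Ω] [Algebra M Ω] [IsScalarTower M L Ω] [Algebra L N]
    [Algebra M N] [IsScalarTower M L N] [Algebra M B] [IsAlgClosure L Ω] [IsAlgClosure M B]
    (U : Set (ValuationSubring L)) (hU : ∀ O ∈ U, ∀ c : M, algebraMap M L c ∈ O)
    (e : N →ₐ[L] Ω) (he : e.fieldRange = unramified L Ω U) (s : GalSection M L N B)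
    (hs : ∀ v : HeightOneSpectrum (𝓞 M),
      s.GeometricOver (v.adicCompletion M) (AlgebraicClosure (v.adicCompletion M))) :
    Function.Bijective fun P : J (fM M f) (IntermediateField.fixedField s.s.range) => P ^ 2 := by
  have hmK : (fF f).Monic := hm.map _
  have hdK : (fF f).natDegree = 2 * g + 1 := by rw [fF, hm.natDegree_map, hd]
  have hiM : Irreducible (fM M f) := Pool.Agent.N874.JM.irr_up hM hirr hmK (by
    rw [hdK]
    exact odd_two_mul_add_one g)
  refine uniq_ext (half_core ext conj divT (hmK.map _) hiM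
    (by rw [hmK.natDegree_map, hdK]) hsel (fun ρ x => ?_) U hU e he s hs)
  have e1 : (fM M f).map ρ = (fF f).map (ρ.comp (algebraMap F M)) := Polynomial.map_map _ _ _
  rw [e1]
  exact hmo (ρ.comp (algebraMap F M)) x

end main

end Pool.Agent.Helper82.SZ
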