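import Pool.Agent.Helper82.SY.Unr

/-!
# Project SZ (helper82): the square roots of the Kummer class of a divisor are unramified
-/

set_option autoImplicit false
set_option linter.all false

open Polynomial
open scoped Classical

namespace Pool.Agent.Helper82.SZ

open Pool.Agent.W620.SC
open Pool.Agent.Helper82.SY (const_val)

section val

variable {K Ω : Type} [Field K] [CharZero K] [Field Ω] [Algebra K Ω] [IsAlgClosed Ω]

/-- The element with which `X - θ` is compared. -/
noncomputable def cmp (W : ValuationSubring Ω) (c : Polynomial Ω) (g : ℕ) (θ X : Ω) : Ω :=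
  if X ∈ W then (if W.valuation (X - θ) < 1 then c.eval X else 1) else c.eval X / X ^ g

theorem cmp_val {f : K[X]} (hm : f.Monic) (hs : f.Separable) {g : ℕ}
    (hd : f.natDegree = 2 * g + 1) {W : ValuationSubring Ω} (hW : ∀ c : K, algebraMap K Ω c ∈ W)
    {θ : Ω} (hθ : aeval θ f = 0) {c : Polynomial Ω} {X' : Ω} (hxy : c.eval X' ^ 2 = aeval X' f)
    (hY0 : c.eval X' ≠ 0) :
    cmp W c g θ X' ≠ 0 ∧ W.valuation (X' - θ) = W.valuation (cmp W c g θ X') ^ 2 := by
  have hcΩ : CharZero Ω := charZero_of_injective_algebraMap (algebraMap K Ω).injective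
  set Y' : Ω := c.eval X' with hY'
  have hroot : ∀ r ∈ (f.map (algebraMap K Ω)).roots, IsIntegral K r := by
    intro r hr
    have h1 := (mem_roots'.1 hr).2
    rw [IsRoot.def, eval_map_algebraMap] at h1
    exact ⟨f, hm, h1⟩
  have hsp : (f.map (algebraMap K Ω)).Splits := IsAlgClosed.splits _
  have hmΩ : (f.map (algebraMap K Ω)).Monic := hm.map _
  have hprod : Y' ^ 2 = ((f.map (algebraMap K Ω)).roots.map fun r => X' - r).prod := by
    have h1 : aeval X' f = ((f.map (algebraMap K Ω)).roots.map fun r => X' - r).prod := by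
      conv_lhs => rw [← eval_map_algebraMap, hsp.eq_prod_roots_of_monic hmΩ]
      rw [eval_multiset_prod, Multiset.map_map]
      congr 1
      refine Multiset.map_congr rfl fun r _ => ?_
      rw [Function.comp_apply, eval_sub, eval_X, eval_C]
    rw [← h1, hxy]
  have hcard : Multiset.card (f.map (algebraMap K Ω)).roots = 2 * g + 1 := by
    rw [← hd, ← hm.natDegree_map (algebraMap K Ω)]
    exact (hsp.natDegree_eq_card_roots).symm
  have hθr : θ ∈ (f.map (algebraMap K Ω)).roots := by
    rw [mem_roots hmΩ.ne_zero, IsRoot.def, eval_map_algebraMap]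
    exact hθ
  have hθi : IsIntegral K θ := hroot θ hθr
  have hθW : W.valuation θ ≤ 1 := (W.valuation_le_one_iff _).2 (const_mem (k := K) hW hθi)
  unfold cmp
  by_cases hx : X' ∈ W
  · rw [if_pos hx]
    by_cases hn : W.valuation (X' - θ) < 1
    · -- the other factors are units
      rw [if_pos hn]
      refine ⟨hY0, ?_⟩
      have hnd : (f.map (algebraMap K Ω)).roots.Nodup := nodup_roots (hs.map)
      have h1 : (f.map (algebraMap K Ω)).roots = θ ::ₘ ((f.map (algebraMap K Ω)).roots.erase θ) :=
        (Multiset.cons_erase hθr).symm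
      rw [h1, Multiset.map_cons, Multiset.prod_cons] at hprod
      have h2 : W.valuation (((f.map (algebraMap K Ω)).roots.erase θ).map fun r => X' - r).prod
          = 1 := by
        rw [← Multiset.prod_hom]
        refine Multiset.prod_eq_one ?_
        intro z hz
        rw [Multiset.map_map, Multiset.mem_map] at hz
        obtain ⟨r, hr, rfl⟩ := hz
        have hr' := (hnd.mem_erase_iff).1 hr
        have e : (X' - r) = (θ - r) + (X' - θ) := by ring
        have h3 : W.valuation (θ - r) = 1 :=
          const_val (K := K) hW (hθi.sub (hroot r hr'.2)) (sub_ne_zero.2 (Ne.symm hr'.1))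
        rw [Function.comp_apply, e, Valuation.map_add_eq_of_lt_left _ (by rw [h3]; exact hn), h3]
      have h3 := congrArg W.valuation hprod
      rw [map_pow, map_mul, h2, mul_one] at h3
      exact h3.symm
    · rw [if_neg hn]
      refine ⟨one_ne_zero, ?_⟩
      rw [map_one, one_pow]
      refine le_antisymm ?_ (not_lt.1 hn)
      exact (Valuation.map_sub _ _ _).trans (max_le ((W.valuation_le_one_iff _).2 hx) hθW)
  · rw [if_neg hx]
    have hx1 : 1 < W.valuation X' := by
      rw [← not_le]
      intro h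
      exact hx ((W.valuation_le_one_iff _).1 h)
    have hx0 : X' ≠ 0 := by
      intro h0
      apply hx
      rw [h0]
      exact zero_mem _
    have hsub : ∀ r : Ω, IsIntegral K r → W.valuation (X' - r) = W.valuation X' := by
      intro r hr
      refine Valuation.map_sub_eq_of_lt_left _ ?_
      exact lt_of_le_of_lt ((W.valuation_le_one_iff _).2 (const_mem (k := K) hW hr)) hx1
    refine ⟨div_ne_zero hY0 (pow_ne_zero _ hx0), ?_⟩
    have h1 := congrArg W.valuation hprod
    have h2 : W.valuation (((f.map (algebraMap K Ω)).roots).map fun r => X' - r).prod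
          = W.valuation X' ^ (2 * g + 1) := by
      rw [← Multiset.prod_hom, Multiset.map_map]
      have h3 : ((f.map (algebraMap K Ω)).roots.map (⇑W.valuation ∘ fun r => X' - r)) =
          Multiset.replicate (2 * g + 1) (W.valuation X') := by
        rw [Multiset.eq_replicate]
        refine ⟨by rw [Multiset.card_map, hcard], fun z hz => ?_⟩
        rw [Multiset.mem_map] at hz
        obtain ⟨r, hr, rfl⟩ := hz
        rw [Function.comp_apply]
        exact hsub r (hroot r hr)
      rw [h3, Multiset.prod_replicate]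
    rw [map_pow, h2] at h1
    have h0 : W.valuation X' ≠ 0 := (lt_trans zero_lt_one hx1).ne'
    rw [hsub θ hθi, map_div₀, map_pow, div_pow, h1, eq_div_iff (pow_ne_zero _ (pow_ne_zero _ h0)),
      ← pow_mul, ← pow_succ']
    congr 1
    ring

end val

section root

variable {K F Ω : Type} [Field K] [CharZero K] [Field F] [Field Ω] [Algebra K F]
  [Algebra F Ω] [Algebra K Ω] [IsScalarTower K F Ω] [IsAlgClosed Ω]

theorem cmp_fix {W : ValuationSubring Ω} {σ : Ω ≃ₐ[F] Ω} (hσ : σ ∈ inertia F Ω W) {c : Polynomial Ω}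
    (hc : c.map (σ : Ω →+* Ω) = c) {g : ℕ} {θ : Ω} (hθ : σ θ = θ) (X' : Ω) :
    cmp W c g θ (σ X') = σ (cmp W c g θ X') := by
  have hce : c.eval (σ X') = σ (c.eval X') := by
    conv_lhs => rw [← hc]
    exact eval_map_apply (σ : Ω →+* Ω) X'
  have hmem : σ X' ∈ W ↔ X' ∈ W := by
    constructor
    · intro h
      have h1 := (inertia_spec (inv_mem hσ) h).1
      have e : (σ⁻¹ : Ω ≃ₐ[F] Ω) (σ X') = X' := σ.symm_apply_apply X'
      rwa [e] at h1
    · intro h
      exact (inertia_spec hσ h).1
  unfold cmp
  by_cases hx : X' ∈ W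
  · rw [if_pos hx, if_pos (hmem.2 hx)]
    have h1 : W.valuation (σ X' - X') < 1 := (W.mem_nonunits_iff).1 (inertia_spec hσ hx).2
    have h2 : W.valuation (σ X' - θ) < 1 ↔ W.valuation (X' - θ) < 1 := by
      constructor
      · intro h
        have e : X' - θ = (σ X' - θ) - (σ X' - X') := by ring
        rw [e]
        exact lt_of_le_of_lt (Valuation.map_sub _ _ _) (max_lt h h1)
      · intro h
        have e : σ X' - θ = (X' - θ) + (σ X' - X') := by ring
        rw [e]
        exact lt_of_le_of_lt (Valuation.map_add _ _ _) (max_lt h h1)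
    by_cases hn : W.valuation (X' - θ) < 1
    · rw [if_pos hn, if_pos (h2.2 hn), hce]
    · rw [if_neg hn, if_neg (fun h => hn (h2.1 h)), map_one]
  · rw [if_neg hx, if_neg (fun h => hx (hmem.1 h)), map_div₀, map_pow, hce]

/-- **The square roots of the Kummer class.** -/
theorem root_unr {f : K[X]} (hm : f.Monic) (hs : f.Separable) {g : ℕ}
    (hd : f.natDegree = 2 * g + 1) (U : Set (ValuationSubring F))
    (hU : ∀ O ∈ U, ∀ c : K, algebraMap K F c ∈ O) {p c : Polynomial Ω} (hpm : p.Monic)
    (hcop : IsCoprime p (f.map (algebraMap K Ω))) (hpc : p ∣ c ^ 2 - f.map (algebraMap K Ω))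
    (hpU : ∀ n, p.coeff n ∈ unramified F Ω U) (hcU : ∀ n, c.coeff n ∈ unramified F Ω U)
    {θ : Ω} (hθ : aeval θ f = 0) {w : Ω} (hw : w ^ 2 = (-1) ^ p.natDegree * p.eval θ) :
    w ∈ unramified F Ω U := by
  have hcΩ : CharZero Ω := charZero_of_injective_algebraMap (algebraMap K Ω).injective
  have hθi : IsIntegral K θ := ⟨f, hm, hθ⟩
  have hp0 : p.eval θ ≠ 0 := by
    intro h0
    obtain ⟨a, b, hab⟩ := hcop
    have h1 := congrArg (eval θ) hab
    rw [eval_add, eval_mul, eval_mul, h0, eval_map_algebraMap, hθ, mul_zero, mul_zero, add_zero,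
      eval_one] at h1
    exact zero_ne_one h1
  have hpr : ∀ X' ∈ p.roots, c.eval X' ^ 2 = aeval X' f ∧ c.eval X' ≠ 0 := by
    intro X' hX'
    have h1 : p.eval X' = 0 := (mem_roots'.1 hX').2
    obtain ⟨q, hq⟩ := hpc
    have h2 := congrArg (eval X') hq
    rw [eval_sub, eval_pow, eval_map_algebraMap, eval_mul, h1, zero_mul, sub_eq_zero] at h2
    refine ⟨h2, fun h0 => ?_⟩
    rw [h0, zero_pow (by norm_num)] at h2
    obtain ⟨a, b, hab⟩ := hcop
    have h3 := congrArg (eval X') hab
    rw [eval_add, eval_mul, eval_mul, h1, eval_map_algebraMap, ← h2, mul_zero, mul_zero, add_zero,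
      eval_one] at h3
    exact zero_ne_one h3
  rw [mem_unramified]
  intro W hW σ hσ
  have hWk : ∀ c : K, algebraMap K Ω c ∈ W := by
    intro c
    rw [IsScalarTower.algebraMap_apply K F Ω]
    exact hU _ hW c
  have hσθ : σ θ = θ := inertia_const (k := K) hWk hσ hθi
  have hfixp : p.map (σ : Ω →+* Ω) = p := by
    ext n
    rw [coeff_map]
    exact mem_unramified.1 (hpU n) W hW σ hσ
  have hfixc : c.map (σ : Ω →+* Ω) = c := by
    ext n
    rw [coeff_map]
    exact mem_unramified.1 (hcU n) W hW σ hσ
  have hroots : p.roots.map σ = p.roots := by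
    have h1 := Polynomial.Splits.roots_map (IsAlgClosed.splits p) (σ : Ω →+* Ω)
    rw [hfixp] at h1
    exact h1.symm
  set T : Ω := (p.roots.map fun X' => cmp W c g θ X').prod with hT
  have hσT : σ T = T := by
    rw [hT, map_multiset_prod, Multiset.map_map]
    have h1 : p.roots.map (σ ∘ fun X' => cmp W c g θ X') =
        (p.roots.map σ).map fun X' => cmp W c g θ X' := by
      rw [Multiset.map_map]
      refine Multiset.map_congr rfl fun X' _ => ?_
      exact (cmp_fix hσ hfixc hσθ X').symm
    rw [h1, hroots]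
  have hT0 : T ≠ 0 := by
    rw [hT]
    refine Multiset.prod_ne_zero ?_
    rw [Multiset.mem_map]
    rintro ⟨X', hX', h0⟩
    obtain ⟨h1, h2⟩ := hpr X' hX'
    exact (cmp_val hm hs hd hWk hθ h1 h2).1 h0
  have hv : W.valuation (w ^ 2) = W.valuation (T ^ 2) := by
    have e1 : p.eval θ = (p.roots.map fun X' => θ - X').prod := by
      conv_lhs => rw [(IsAlgClosed.splits p).eq_prod_roots_of_monic hpm]
      rw [eval_multiset_prod, Multiset.map_map]
      congr 1
      refine Multiset.map_congr rfl fun r _ => ?_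
      rw [Function.comp_apply, eval_sub, eval_X, eval_C]
    rw [hw, map_mul, map_pow, Valuation.map_neg, map_one, one_pow, one_mul, map_pow, e1, hT,
      ← Multiset.prod_hom, ← Multiset.prod_hom, Multiset.map_map, Multiset.map_map,
      ← Multiset.prod_map_pow]
    congr 1
    refine Multiset.map_congr rfl fun X' hX' => ?_
    obtain ⟨h1, h2⟩ := hpr X' hX'
    rw [Function.comp_apply, Function.comp_apply, Valuation.map_sub_swap]
    exact (cmp_val hm hs hd hWk hθ h1 h2).2
  have hw0 : w ≠ 0 := by
    intro h0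
    rw [h0, zero_pow (by norm_num)] at hw
    exact mul_ne_zero (pow_ne_zero _ (neg_ne_zero.2 one_ne_zero)) hp0 hw.symm
  have hv0 : W.valuation (T ^ 2) ≠ 0 := (Valuation.ne_zero_iff _).2 (pow_ne_zero _ hT0)
  refine inertia_root (k := K) hWk hσ (n := 2) (by norm_num) (t := T) ?_ hσT hT0 hw0 ?_ ?_
  · rw [hw, map_mul, map_pow, map_neg, map_one]
    congr 1
    have h1 := eval_map_apply (p := p) (σ : Ω →+* Ω) θ
    rw [hfixp] at h1
    have h2 : (σ : Ω →+* Ω) θ = θ := hσθ
    rw [h2] at h1
    exact h1.symm
  · rw [← W.valuation_le_one_iff, map_div₀, hv, div_self hv0]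
  · rw [← W.valuation_le_one_iff, map_div₀, hv, div_self hv0]

end root

end Pool.Agent.Helper82.SZ
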