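import Pool.Agent.Helper82.SZ.Spc
import Pool.Agent.Helper82.SZ.Unr
import Pool.Agent.Helper82.SZ.Dsc
import Pool.Agent.Helper82.SY.Fin

/-!
# Project SZ (helper82): the fixed field of a section, unique divisibility by two
-/

set_option autoImplicit false
set_option linter.all false

open Polynomial IsDedekindDomain NumberField
open scoped Classical

namespace Pool.Agent.Helper82.SZ

open Pool.Agent.TH954
open Pool.Agent.W620.SC (unramified)
open Pool.Agent.N783.PF (fF rd)
open Pool.Agent.N783.PQ (LocIm)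
open Pool.Agent.N874.TF (fM)
open Pool.Agent.N874.QM (SelM)
open Pool.Agent.Helper82.SY (root_lift real_loc)

section core

variable {K : Type} [Field K] [NumberField K]
variable {F Ω M B : Type} [Field F] [Field Ω] [Field M]
  [Field B] [Algebra K F] [Algebra F Ω] [Algebra K Ω] [IsScalarTower K F Ω] [Algebra F M]
  [Algebra K M] [IsScalarTower K F M] [Algebra K B] [IsAlgClosure F Ω] [IsAlgClosure K B]

/-- **The Kummer class of a divisor over the fixed field is trivial.** -/
theorem class_sq [Algebra.IsAlgebraic F M] (hE : S_EXT) (hC : S_CONJ) (hDiv : S_DIV) {f : K[X]} (hm : f.Monic)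
    (hirr : Irreducible f) {g : ℕ} (hd : f.natDegree = 2 * g + 1) (hsel : SelM K f)
    (hmo : ∀ (ρ : K →+* ℝ) (x : ℝ), 0 < (derivative (f.map ρ)).eval x)
    (U : Set (ValuationSubring F)) (hU : ∀ O ∈ U, ∀ c : K, algebraMap K F c ∈ O)
    (e : M →ₐ[F] Ω) (he : e.fieldRange = unramified F Ω U)
    (s : GalSection K F M B)
    (hs : ∀ v : HeightOneSpectrum (𝓞 K),
      s.GeometricOver (v.adicCompletion K) (AlgebraicClosure (v.adicCompletion K)))
    {H : Type} [Field H] [Algebra K H] [Algebra H M] [IsScalarTower K H M]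
    (hfix : ∀ τ (z : H), (toSAct s).s τ (algebraMap H M z) = algebraMap H M z)
    (hmem : ∀ z : M, (∀ τ, (toSAct s).s τ z = z) → ∃ y : H, algebraMap H M y = z)
    (p c : H[X]) (hpm : p.Monic) (hcop : IsCoprime p (f.map (algebraMap K H)))
    (hpc : p ∣ c ^ 2 - f.map (algebraMap K H)) :
    ∃ t : H[X], f.map (algebraMap K H) ∣ (-1) ^ p.natDegree * p - t ^ 2 := by
  have hΩ1 : IsAlgClosed Ω := IsAlgClosure.isAlgClosed F
  have hsep : f.Separable := hirr.separable
  set A := toSAct s with hA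
  have hKHM : (algebraMap H M).comp (algebraMap K H) = algebraMap K M :=
    (IsScalarTower.algebraMap_eq K H M).symm
  have hfM : (f.map (algebraMap K H)).map (algebraMap H M) = f.map (algebraMap K M) := by
    rw [Polynomial.map_map, hKHM]
  set R : AlgebraicClosure K → M := fun θ => (-1) ^ p.natDegree * aeval (A.j θ) p with hR
  have hRact : ∀ (τ : AlgebraicClosure K ≃ₐ[K] AlgebraicClosure K) (θ : AlgebraicClosure K),
      aeval θ f = 0 → A.s τ (R θ) = R (τ θ) := by
    intro τ θ _
    rw [hR]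
    change A.s τ ((-1) ^ p.natDegree * aeval (A.j θ) p) = (-1) ^ p.natDegree * aeval (A.j (τ θ)) p
    rw [map_mul, map_pow, map_neg, map_one, act_aeval A hfix]
  have hrt : ∀ θ : AlgebraicClosure K, aeval θ f = 0 → aeval (A.j θ) f = 0 := fun θ hθ => by
    rw [aeval_algHom_apply, hθ, map_zero]
  have hne : ∀ θ : AlgebraicClosure K, aeval θ f = 0 → R θ ≠ 0 := by
    intro θ hθ h0
    have h1 : aeval (A.j θ) p = 0 := by
      rcases mul_eq_zero.1 h0 with h | h
      · exact absurd h (pow_ne_zero _ (neg_ne_zero.2 one_ne_zero))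
      · exact h
    obtain ⟨a, b, hab⟩ := hcop
    have h2 := congrArg (aeval (A.j θ)) hab
    rw [map_add, map_mul, map_mul, h1, aeval_map_algebraMap, hrt θ hθ, mul_zero, mul_zero,
      add_zero, map_one] at h2
    exact zero_ne_one h2
  -- square roots
  set pM : M[X] := p.map (algebraMap H M) with hpM
  set cM : M[X] := c.map (algebraMap H M) with hcM
  have hpMm : pM.Monic := hpm.map _
  have hcopM : IsCoprime pM (f.map (algebraMap K M)) := by
    have h1 := hcop.map (mapRingHom (algebraMap H M))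
    rw [coe_mapRingHom, hfM] at h1
    exact h1
  have hpcM : pM ∣ cM ^ 2 - f.map (algebraMap K M) := by
    have h1 := Polynomial.map_dvd (algebraMap H M) hpc
    rw [Polynomial.map_sub, Polynomial.map_pow, hfM] at h1
    exact h1
  have hndM : pM.natDegree = p.natDegree := hpm.natDegree_map _
  have hw : ∀ θ : AlgebraicClosure K, aeval θ f = 0 → ∃ w : M, w ^ 2 = R θ := by
    intro θ hθ
    have heK : (e : M →+* Ω).comp (algebraMap K M) = algebraMap K Ω := by
      rw [IsScalarTower.algebraMap_eq K F M, ← RingHom.comp_assoc]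
      have h1 : (e : M →+* Ω).comp (algebraMap F M) = algebraMap F Ω := e.comp_algebraMap
      rw [h1, ← IsScalarTower.algebraMap_eq]
    have hfe : (f.map (algebraMap K M)).map (e : M →+* Ω) = f.map (algebraMap K Ω) := by
      rw [Polynomial.map_map, heK]
    have hθ' : aeval (e (A.j θ)) f = 0 := by
      have h1 : (f.map (algebraMap K M)).eval (A.j θ) = 0 := by
        rw [eval_map_algebraMap]
        exact hrt θ hθ
      have h2 := eval_map_apply (p := f.map (algebraMap K M)) (e : M →+* Ω) (A.j θ)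
      rw [hfe, h1, map_zero, eval_map_algebraMap] at h2
      exact h2
    obtain ⟨w, hw⟩ := IsAlgClosed.exists_pow_nat_eq (e (R θ)) (n := 2) (by norm_num)
    have hcoe : ∀ (q : M[X]) (n : ℕ), (q.map (e : M →+* Ω)).coeff n ∈ unramified F Ω U := by
      intro q n
      rw [coeff_map, ← he]
      exact ⟨q.coeff n, rfl⟩
    have hpe : (pM.map (e : M →+* Ω)).natDegree = p.natDegree := by
      rw [hpMm.natDegree_map, hndM]
    have hcope : IsCoprime (pM.map (e : M →+* Ω)) (f.map (algebraMap K Ω)) := by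
      have h1 := hcopM.map (mapRingHom (e : M →+* Ω))
      rw [coe_mapRingHom, hfe] at h1
      exact h1
    have hpce : pM.map (e : M →+* Ω) ∣ (cM.map (e : M →+* Ω)) ^ 2 - f.map (algebraMap K Ω) := by
      have h1 := Polynomial.map_dvd (e : M →+* Ω) hpcM
      rw [Polynomial.map_sub, Polynomial.map_pow, hfe] at h1
      exact h1
    have hw2 : w ^ 2 = (-1) ^ (pM.map (e : M →+* Ω)).natDegree *
        (pM.map (e : M →+* Ω)).eval (e (A.j θ)) := by
      have h2 := eval_map_apply (p := pM) (e : M →+* Ω) (A.j θ)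
      have h3 : (pM.map (e : M →+* Ω)).eval (e (A.j θ)) = e (pM.eval (A.j θ)) := h2
      rw [hw, hpe, h3, hpM, eval_map_algebraMap, hR]
      change e ((-1) ^ p.natDegree * aeval (A.j θ) p) = _
      rw [map_mul, map_pow, map_neg, map_one]
    have hwU : w ∈ unramified F Ω U :=
      root_unr hm hsep hd U hU (hpMm.map _) hcope hpce (hcoe pM) (hcoe cM) hθ' hw2
    rw [← he] at hwU
    obtain ⟨z, hz⟩ := hwU
    have hz' : e z = w := hz
    have hzz : e (z ^ 2) = e (R θ) := by rw [map_pow, hz', hw]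
    exact ⟨z, e.injective hzz⟩
  obtain ⟨h, W, h1, h2, h3⟩ := exists_family A hm hirr hRact hne hw
  -- the norm
  have ho : Odd f.natDegree := by
    rw [hd]
    exact odd_two_mul_add_one g
  obtain ⟨y, hy⟩ := normH A hm ho hpm hpc
  have hY0 : algebraMap H M y ≠ 0 := by
    intro h0
    rw [h0, zero_pow (by norm_num), Multiset.prod_eq_zero_iff, Multiset.mem_map] at hy
    obtain ⟨θ, hθ, h4⟩ := hy
    rw [mem_roots (hm.map _).ne_zero, IsRoot.def, eval_map_algebraMap] at hθ
    exact hne θ hθ h4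
  obtain ⟨z, hz⟩ := norm_sq A hm hsep (fun τ => hfix τ y) hy hY0 h2 h3
  have hsq : IsSquare (Algebra.norm K (AdjoinRoot.mk f h)) := ⟨z, by rw [hz, sq]⟩
  have hcoph : IsCoprime h f := by
    refine ((hirr.coprime_iff_not_dvd).2 fun hdv => ?_).symm
    obtain ⟨θ, hθ⟩ := IsAlgClosed.exists_aeval_eq_zero (AlgebraicClosure K) f
      (degree_pos_of_irreducible hirr).ne'
    obtain ⟨q, hq⟩ := hdv
    apply h1 θ hθ
    rw [hq, map_mul, hθ, zero_mul]
  have hfixM : ∀ (q : H[X]) τ, (q.map (algebraMap H M)).map ((A.s τ : M →ₐ[K] M) : M →+* M) =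
      q.map (algebraMap H M) := by
    intro q τ
    rw [Polynomial.map_map]
    congr 1
    exact RingHom.ext fun z => hfix τ z
  have D : Dat A f h pM cM W g :=
    ⟨hm, hsep, hd, hpMm, hcopM, hpcM, hfixM p, hfixM c, fun θ hθ => by
      rw [h2 θ hθ, hndM, hpM, eval_map_algebraMap], h3⟩
  obtain ⟨t, ht⟩ := hsel h hcoph hsq (fun w => by
    haveI : CharZero (w.adicCompletion K) :=
      charZero_of_injective_algebraMap (algebraMap K (w.adicCompletion K)).injective
    obtain ⟨pl, hpl⟩ := toSAct_geo s (hs w)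
    exact D.loc hE hC hDiv hpl) (fun ρ => real_loc hm hd hsep hmo hcoph hsq ρ)
  have ht' : ∀ θ : AlgebraicClosure K, aeval θ f = 0 → aeval θ h = (aeval θ t) ^ 2 := by
    intro θ hθ
    obtain ⟨q, hq⟩ := ht
    have h4 : aeval θ (h - t ^ 2) = 0 := by rw [hq, map_mul, hθ, zero_mul]
    rw [map_sub, map_pow] at h4
    exact sub_eq_zero.1 h4
  obtain ⟨r, hr⟩ := descent A hfix hmem hm (γ := fun θ => W θ / A.j (aeval θ t)) (by
    intro τ θ hθ
    change A.s τ (W θ / A.j (aeval θ t)) = W (τ θ) / A.j (aeval (τ θ) t)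
    have e2 : aeval (τ θ) t = τ (aeval θ t) :=
      aeval_algHom_apply (τ : AlgebraicClosure K →ₐ[K] AlgebraicClosure K) θ t
    rw [map_div₀, A.hj, h3 _ _ hθ, e2])
  refine ⟨r, dvd_of A hm hsep fun θ hθ => ?_⟩
  have h0 : A.j (aeval θ h) ≠ 0 := (_root_.map_ne_zero _).2 (h1 _ hθ)
  have e3 : (W θ / A.j (aeval θ t)) ^ 2 = R θ := by
    rw [div_pow, h2 _ hθ, ← map_pow, ← ht' _ hθ, mul_div_assoc, mul_comm, div_mul_cancel₀ _ h0]
  rw [map_sub, map_pow, hr θ hθ, e3, sub_eq_zero, map_mul, map_pow, map_neg, map_one]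

/-- **Unique divisibility by two of the Jacobian over the fixed field of a section.** -/
theorem half_core (hE : S_EXT) (hC : S_CONJ) (hDiv : S_DIV) {f : K[X]} (hm : f.Monic)
    (hirr : Irreducible f) {g : ℕ} (hd : f.natDegree = 2 * g + 1) (hsel : SelM K f)
    (hmo : ∀ (ρ : K →+* ℝ) (x : ℝ), 0 < (derivative (f.map ρ)).eval x)
    (U : Set (ValuationSubring F)) (hU : ∀ O ∈ U, ∀ c : K, algebraMap K F c ∈ O)
    (e : M →ₐ[F] Ω) (he : e.fieldRange = unramified F Ω U)
    (s : GalSection K F M B)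
    (hs : ∀ v : HeightOneSpectrum (𝓞 K),
      s.GeometricOver (v.adicCompletion K) (AlgebraicClosure (v.adicCompletion K))) :
    Pool.Agent.N874.Jac.UniquelyTwoDivisible
      (f.map (algebraMap K (IntermediateField.fixedField s.s.range))) := by
  haveI hΩ2 : Algebra.IsAlgebraic F Ω := IsAlgClosure.isAlgebraic
  haveI hMalg : Algebra.IsAlgebraic F M := Algebra.IsAlgebraic.of_injective e e.injective
  set H := IntermediateField.fixedField s.s.range with hH
  haveI : IsScalarTower K H M := IsScalarTower.of_algebraMap_eq fun x => rfl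
  haveI : CharZero H := charZero_of_injective_algebraMap (algebraMap K H).injective
  have hsu : ∀ (τ : AlgebraicClosure K ≃ₐ[K] AlgebraicClosure K),
      ∃ γ : B ≃ₐ[K] B, ∀ z, (toSAct s).s τ z = s.s γ z :=
    fun τ => ⟨(eqv K B).autCongr τ, fun z => rfl⟩
  have hfix : ∀ τ (z : H), (toSAct s).s τ (algebraMap H M z) = algebraMap H M z := by
    intro τ z
    obtain ⟨γ, hγ⟩ := hsu τ
    rw [hγ]
    exact (IntermediateField.mem_fixedField_iff _ _).1 z.2 _ ⟨γ, rfl⟩
  have hmem : ∀ z : M, (∀ τ, (toSAct s).s τ z = z) → ∃ y : H, algebraMap H M y = z := by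
    intro z hz
    refine ⟨⟨z, ?_⟩, rfl⟩
    rw [hH, IntermediateField.mem_fixedField_iff]
    rintro _ ⟨γ, rfl⟩
    have h1 := hz ((eqv K B).autCongr.symm γ)
    rw [toSAct_s] at h1
    exact h1
  exact uniq (hm.map _) (irr_H (toSAct s) hfix hm hirr) hirr.separable.map (by
    rw [hm.natDegree_map, hd]
    exact odd_two_mul_add_one g) two_ne_zero
    (fun p c h1 h2 h3 => class_sq hE hC hDiv hm hirr hd hsel hmo U hU e he s hs hfix hmem p c h1 h2 h3)

end core

end Pool.Agent.Helper82.SZ
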