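import Pool.Agent.Helper82.SZ.Base
import Pool.Agent.Helper82.SY.Loc

/-!
# Project SZ (helper82): lifts of the automorphisms given by a section to a splitting field
-/

set_option autoImplicit false
set_option linter.all false

open Polynomial
open scoped Classical

namespace Pool.Agent.Helper82.SZ

open Pool.Agent.TH954 (SAct Plc GeoPlc Compat exists_compat)

section pull

variable {N N' C C' : Type} [Field N] [Field N'] [Field C] [Field C']

/-- Pullback of a place along a homomorphism, and composition with a homomorphism of the values. -/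
noncomputable def Pl.pull (p : Pl N' C) (φ : N →+* N') (τ : C →+* C') : Pl N C' where
  W := p.W.comap φ
  ρ := (τ.comp p.ρ).comp
    { toFun := fun z => ⟨φ z.1, z.2⟩
      map_one' := Subtype.ext (map_one φ)
      map_mul' := fun x y => Subtype.ext (map_mul φ _ _)
      map_zero' := Subtype.ext (map_zero φ)
      map_add' := fun x y => Subtype.ext (map_add φ _ _) }
  loc := by
    intro x hx
    have h1 : p.ρ ⟨φ x.1, x.2⟩ ≠ 0 := by
      intro h0
      apply hx
      change τ (p.ρ ⟨φ x.1, x.2⟩) = 0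
      rw [h0, map_zero]
    have h2 := p.loc ⟨φ x.1, x.2⟩ h1
    change φ (x : N)⁻¹ ∈ p.W
    rw [map_inv₀]
    exact h2

theorem Pl.pull_val (p : Pl N' C) (φ : N →+* N') (τ : C →+* C') (z : N) (c : C') :
    (p.pull φ τ).val z c ↔ ∃ c', p.val (φ z) c' ∧ τ c' = c := by
  constructor
  · rintro ⟨h1, h2⟩
    exact ⟨p.ρ ⟨φ z, h1⟩, ⟨h1, rfl⟩, h2⟩
  · rintro ⟨c', ⟨h1, rfl⟩, h2⟩
    exact ⟨h1, h2⟩

end pull

section aux

theorem exists_hom {M N' L : Type} [Field M] [Field N'] [Field L] [Algebra M N'] (p : M[X])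
    [Polynomial.IsSplittingField M N' p] (i : M →+* L) (h : (p.map i).Splits) :
    ∃ φ : N' →+* L, ∀ z, φ (algebraMap M N' z) = i z := by
  letI := i.toAlgebra
  exact ⟨(IsSplittingField.lift N' p h : N' →ₐ[M] L), fun z => AlgHom.commutes _ z⟩

end aux

section lift

variable {K M : Type} [Field K] [CharZero K] [Field M] [Algebra K M] (A : SAct K M)
variable {L : Type} [Field L] [Algebra K L] {pl : Plc K M (AlgebraicClosure L)}

theorem geo_iff (hgeo : GeoPlc A pl) {σ : AlgebraicClosure L ≃ₐ[L] AlgebraicClosure L}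
    {τ : AlgebraicClosure K ≃ₐ[K] AlgebraicClosure K} (h : Compat (pl.iot A.j) σ τ) (z : M)
    (c : AlgebraicClosure L) : pl.val z c ↔ pl.val (A.s τ z) (σ c) := by
  have key : ∀ (σ : AlgebraicClosure L ≃ₐ[L] AlgebraicClosure L)
      (τ : AlgebraicClosure K ≃ₐ[K] AlgebraicClosure K), Compat (pl.iot A.j) σ τ → ∀ z c,
      pl.val z c → pl.val (A.s τ z) (σ c) := by
    rintro σ τ h z c ⟨h1, h2⟩
    obtain ⟨h3, h4⟩ := hgeo σ τ h ⟨z, h1⟩
    exact ⟨h3, by rw [h4, h2]⟩
  refine ⟨key σ τ h z c, fun h1 => ?_⟩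
  have h2 : Compat (pl.iot A.j) σ.symm τ.symm := by
    intro z
    apply σ.injective
    rw [σ.apply_symm_apply, ← h, τ.apply_symm_apply]
  have h3 := key _ _ h2 _ _ h1
  rw [σ.symm_apply_apply] at h3
  have e : A.s τ.symm (A.s τ z) = z := by
    have e1 : A.s τ.symm (A.s τ z) = (A.s τ.symm * A.s τ) z := rfl
    rw [e1, ← map_mul]
    have e2 : τ.symm * τ = 1 := inv_mul_cancel τ
    rw [e2, map_one]
    rfl
  rwa [e] at h3

variable {N' : Type} [Field N'] [Algebra M N'] [Algebra K N'] [IsScalarTower K M N']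

/-- The place as a place over `K`. -/
noncomputable def toPlc (P : Pl N' (AlgebraicClosure L))
    (h : ∀ z c, P.val (algebraMap M N' z) c ↔ pl.val z c) : Plc K N' (AlgebraicClosure L) where
  W := P.W
  ρ := P.ρ
  loc := P.loc
  comm := by
    intro c
    obtain ⟨h1, h2⟩ := pl.comm c
    have h3 := (h (algebraMap K M c) _).2 ⟨h1, h2⟩
    rw [← IsScalarTower.algebraMap_apply] at h3
    exact h3

/-- **Lifts to the splitting field.** -/
theorem lifts (hE : S_EXT) (hC : S_CONJ) (hgeo : GeoPlc A pl) (p : M[X])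
    [Polynomial.IsSplittingField M N' p] [FiniteDimensional M N'] [IsGalois M N']
    (hp : ∀ τ, p.map ((A.s τ : M →ₐ[K] M) : M →+* M) = p) :
    ∃ P : Plc K N' (AlgebraicClosure L), (∀ z c, P.val (algebraMap M N' z) c ↔ pl.val z c) ∧
      ∀ (σ : AlgebraicClosure L ≃ₐ[L] AlgebraicClosure L)
        (τ : AlgebraicClosure K ≃ₐ[K] AlgebraicClosure K), Compat (pl.iot A.j) σ τ →
        ∃ φ : N' →+* N', (∀ z, φ (algebraMap M N' z) = algebraMap M N' (A.s τ z)) ∧
          ∀ z c, P.val z c ↔ P.val (φ z) (σ c) := by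
  obtain ⟨P, hP⟩ := hE M N' (AlgebraicClosure L) ⟨pl.W, pl.ρ, pl.loc⟩
  have hP' : ∀ z c, P.val (algebraMap M N' z) c ↔ pl.val z c := hP
  refine ⟨toPlc P hP', hP', fun σ τ hστ => ?_⟩
  have hsp : (p.map (algebraMap M N')).Splits := IsSplittingField.splits N' p
  obtain ⟨φ₀, hφ₀⟩ := exists_hom (N' := N') p
    ((algebraMap M N').comp ((A.s τ : M →ₐ[K] M) : M →+* M)) (by
      rw [← Polynomial.map_map, hp]
      exact hsp)
  set Q : Pl N' (AlgebraicClosure L) :=
    P.pull φ₀ ((σ.symm : AlgebraicClosure L ≃+* AlgebraicClosure L) :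
      AlgebraicClosure L →+* AlgebraicClosure L) with hQ
  have hQv : ∀ z c, Q.val z c ↔ P.val (φ₀ z) (σ c) := by
    intro z c
    rw [hQ, Pl.pull_val]
    constructor
    · rintro ⟨c', h1, rfl⟩
      have e : σ (σ.symm c') = c' := σ.apply_symm_apply c'
      change P.val (φ₀ z) (σ (σ.symm c'))
      rw [e]
      exact h1
    · intro h1
      exact ⟨σ c, h1, σ.symm_apply_apply c⟩
  obtain ⟨k, hk⟩ := hC M N' (AlgebraicClosure L) Q P (fun z c => by
    rw [hQv, hφ₀, hP', RingHom.comp_apply, hP']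
    exact (geo_iff A hgeo hστ z c).symm)
  refine ⟨φ₀.comp (k : N' →+* N'), fun z => ?_, fun z c => ?_⟩
  · have e : (k : N' →+* N') (algebraMap M N' z) = algebraMap M N' z := k.commutes z
    rw [RingHom.comp_apply, e, hφ₀]
    rfl
  · have h1 := hk z c
    rw [hQv] at h1
    exact h1

end lift

end Pool.Agent.Helper82.SZ
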