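import Pool.Agent.Helper82.SZ.Lft

/-!
# Project SZ (helper82): the values of the Kummer class of a point at a place
-/

set_option autoImplicit false
set_option linter.all false

open Polynomial
open scoped Classical

namespace Pool.Agent.Helper82.SZ

open Pool.Agent.TH954 (SAct Plc GeoPlc Compat exists_compat)
open Pool.Agent.TH954.Plc
open Pool.Agent.Helper82.SY (prod_rts)

section ratio

variable {K N C : Type} [Field K] [CharZero K] [Field N] [Field C] [CharZero C] [Algebra K N]
  [Algebra K C] (P : Plc K N C)

/-- The value of `X`, or zero. -/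
noncomputable def vv (X : N) : C := if h : X ∈ P.W then P.ρ ⟨X, h⟩ else 0

theorem val_vv {X : N} (h : X ∈ P.W) : P.val X (vv P X) := by
  unfold vv
  rw [dif_pos h]
  exact ⟨h, rfl⟩

/-- The normalising element. -/
noncomputable def nn (c : Polynomial N) (g : ℕ) (e : C) (X : N) : N :=
  if X ∈ P.W then (if vv P X = e then c.eval X else 1) else c.eval X / X ^ g

/-- The value of the ratio. -/
noncomputable def fe (f : K[X]) (e : C) (X : N) : C :=
  if X ∈ P.W then (if vv P X = e then (aeval e (derivative f))⁻¹ else vv P X - e) else 1

variable {P}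

theorem val_mprod {ι : Type} (s : Multiset ι) {a : ι → N} {b : ι → C}
    (h : ∀ i ∈ s, P.val (a i) (b i)) : P.val (s.map a).prod (s.map b).prod := by
  induction s using Multiset.induction_on with
  | empty => rw [Multiset.map_zero, Multiset.map_zero, Multiset.prod_zero, Multiset.prod_zero]
             exact val_one
  | cons i s ih =>
    rw [Multiset.map_cons, Multiset.map_cons, Multiset.prod_cons, Multiset.prod_cons]
    exact (h i (Multiset.mem_cons_self _ _)).mul
      (ih fun i hi => h i (Multiset.mem_cons_of_mem hi))

theorem ratio {f : K[X]} (hm : f.Monic) (hs : f.Separable) {g : ℕ} (hd : f.natDegree = 2 * g + 1)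
    (j : AlgebraicClosure K →ₐ[K] N) {θ : AlgebraicClosure K} (hθ : aeval θ f = 0)
    {c : Polynomial N} {X : N} (hY : c.eval X ^ 2 = aeval X f) (hY0 : c.eval X ≠ 0) :
    nn P c g (P.iot j θ) X ≠ 0 ∧
      P.val ((X - j θ) / nn P c g (P.iot j θ) X ^ 2) (fe P f (P.iot j θ) X) := by
  set e : C := P.iot j θ with he
  have hje : P.val (j θ) e := val_j j θ
  set Y := c.eval X with hYd
  have hsp : (f.map (algebraMap K (AlgebraicClosure K))).Splits := IsAlgClosed.splits _
  set R := (f.map (algebraMap K (AlgebraicClosure K))).roots with hR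
  have hcard : Multiset.card R = 2 * g + 1 := by
    rw [← hd, ← hm.natDegree_map (algebraMap K (AlgebraicClosure K))]
    exact (hsp.natDegree_eq_card_roots).symm
  have hθR : θ ∈ R := by
    rw [hR, mem_roots (hm.map _).ne_zero, IsRoot.def, eval_map_algebraMap]
    exact hθ
  have hprod : Y ^ 2 = (R.map fun r => X - j r).prod := by
    rw [hY, prod_rts j hm X]
  have hXθ : X - j θ ≠ 0 := by
    intro h0
    rw [← Multiset.cons_erase hθR, Multiset.map_cons, Multiset.prod_cons, h0, zero_mul] at hprod
    exact pow_ne_zero 2 hY0 hprod
  unfold nn fe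
  by_cases hX : X ∈ P.W
  · rw [if_pos hX, if_pos hX]
    have hxv := val_vv P hX
    by_cases hv : vv P X = e
    · rw [if_pos hv, if_pos hv]
      rw [hv] at hxv
      refine ⟨hY0, ?_⟩
      have h1 : Y ^ 2 = (X - j θ) * ((R.erase θ).map fun r => X - j r).prod := by
        rw [hprod]
        conv_lhs => rw [← Multiset.cons_erase hθR]
        rw [Multiset.map_cons, Multiset.prod_cons]
      have h2 : P.val ((R.erase θ).map fun r => X - j r).prod
          ((R.erase θ).map fun r => e - P.iot j r).prod :=
        val_mprod _ fun r _ => hxv.sub (val_j j r)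
      have h3 : ((R.erase θ).map fun r => e - P.iot j r).prod = aeval e (derivative f) := by
        have h4 := hsp.eval_root_derivative (hm.map _) hθR
        rw [derivative_map, eval_map_algebraMap] at h4
        rw [he, aeval_algHom_apply, h4, map_multiset_prod, Multiset.map_map]
        congr 1
        refine Multiset.map_congr rfl fun r _ => ?_
        rw [Function.comp_apply, map_sub]
      have h5 : aeval e (derivative f) ≠ 0 := by
        have h6 := hs.aeval_derivative_ne_zero (x := e) (by
          rw [he, aeval_algHom_apply, hθ, map_zero])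
        exact h6
      have h6 : (X - j θ) / Y ^ 2 = (((R.erase θ).map fun r => X - j r).prod)⁻¹ := by
        have h7 : ((R.erase θ).map fun r => X - j r).prod ≠ 0 := by
          intro h0
          rw [h0, mul_zero] at h1
          exact pow_ne_zero 2 hY0 h1
        rw [h1]
        field_simp
      rw [h6]
      rw [h3] at h2
      exact h2.inv h5
    · rw [if_neg hv, if_neg hv]
      refine ⟨one_ne_zero, ?_⟩
      rw [one_pow, div_one]
      exact hxv.sub hje
  · rw [if_neg hX, if_neg hX]
    have hX0 : X ≠ 0 := by
      intro h0
      apply hX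
      rw [h0]
      exact zero_mem _
    have hu := val_inv_of_notMem hX
    have hone : ∀ r : AlgebraicClosure K, P.val (1 - j r * X⁻¹) 1 := by
      intro r
      have h1 := (val_one (pl := P)).sub ((val_j (pl := P) j r).mul hu)
      rwa [mul_zero, sub_zero] at h1
    refine ⟨div_ne_zero hY0 (pow_ne_zero _ hX0), ?_⟩
    set D : N := (R.map fun r => 1 - j r * X⁻¹).prod with hD
    have hDv : P.val D 1 := by
      have h1 := val_mprod (P := P) R (a := fun r => 1 - j r * X⁻¹) (b := fun _ => 1)
        (fun r _ => hone r)
      rwa [Multiset.map_const', Multiset.prod_replicate, one_pow] at h1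
    have hY2 : Y ^ 2 = X ^ (2 * g + 1) * D := by
      rw [hprod, hD, ← hcard, ← Multiset.card_map (fun _ => X) R, ← Multiset.prod_replicate]
      have e1 : Multiset.replicate (Multiset.card (R.map fun _ => X)) X = R.map fun _ => X := by
        rw [Multiset.map_const', Multiset.card_replicate]
      rw [e1, ← Multiset.prod_map_mul]
      congr 1
      refine Multiset.map_congr rfl fun r _ => ?_
      rw [mul_sub, mul_one, mul_comm (j r), mul_inv_cancel_left₀ hX0]
    have hD0 : D ≠ 0 := by
      intro h0
      rw [h0] at hDv
      exact one_ne_zero (hDv.unique val_zero)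
    have h1 : (X - j θ) / (Y / X ^ g) ^ 2 = (1 - j θ * X⁻¹) * D⁻¹ := by
      have hXg : X ^ g ≠ 0 := pow_ne_zero _ hX0
      rw [div_pow, hY2]
      have hXp : X ^ (2 * g + 1) = (X ^ g) ^ 2 * X := by ring
      rw [hXp]
      field_simp
    rw [h1]
    have h2 := (hone θ).mul (hDv.inv one_ne_zero)
    rwa [inv_one, mul_one] at h2

end ratio

end Pool.Agent.Helper82.SZ
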