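import Pool.Agent.Helper82.SZ.Rat
import Pool.Agent.Helper82.SY.Lcl

/-!
# Project SZ (helper82): the local condition for the Kummer class of a divisor at a place which gives the section
-/

set_option autoImplicit false
set_option linter.all false

open Polynomial
open scoped Classical

namespace Pool.Agent.Helper82.SZ

open Pool.Agent.TH954 (SAct Plc GeoPlc Compat exists_compat)
open Pool.Agent.TH954.Plc
open Pool.Agent.N874.JM (LocF)
open Pool.Agent.Helper82.SY (prod_rts root_lift aev_L)

section loc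

variable {K M : Type} [Field K] [CharZero K] [Field M] [Algebra K M] (A : SAct K M)
variable {L : Type} [Field L] [CharZero L] [Algebra K L] {pl : Plc K M (AlgebraicClosure L)}
variable {f h : K[X]} {p c : M[X]} {W : AlgebraicClosure K → M} {g : ℕ}

/-- The hypotheses. -/
structure Dat (A : SAct K M) (f h : K[X]) (p c : M[X]) (W : AlgebraicClosure K → M) (g : ℕ) : Prop where
  mon : f.Monic
  sep : f.Separable
  deg : f.natDegree = 2 * g + 1
  pm : p.Monic
  cop : IsCoprime p (f.map (algebraMap K M))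
  dvd : p ∣ c ^ 2 - f.map (algebraMap K M)
  fixp : ∀ τ, p.map ((A.s τ : M →ₐ[K] M) : M →+* M) = p
  fixc : ∀ τ, c.map ((A.s τ : M →ₐ[K] M) : M →+* M) = c
  sq : ∀ θ : AlgebraicClosure K, aeval θ f = 0 →
    W θ ^ 2 = A.j (aeval θ h) * ((-1) ^ p.natDegree * p.eval (A.j θ))
  act : ∀ (τ : AlgebraicClosure K ≃ₐ[K] AlgebraicClosure K) (θ : AlgebraicClosure K),
    aeval θ f = 0 → A.s τ (W θ) = W (τ θ)

variable {A}

/-- **The local condition.** -/
theorem Dat.loc (hE : S_EXT) (hC : S_CONJ) (hDiv : S_DIV) (D : Dat A f h p c W g)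
    (hgeo : GeoPlc A pl) : LocF L f h := by
  haveI : CharZero M := charZero_of_injective_algebraMap (algebraMap K M).injective
  haveI : IsGalois M p.SplittingField :=
    { to_isSeparable := inferInstance
      to_normal := Normal.of_isSplittingField p }
  obtain ⟨P, hP, hl⟩ := lifts (N' := p.SplittingField) A hE hC hgeo p D.fixp
  set N' := p.SplittingField with hN'
  set j' : AlgebraicClosure K →ₐ[K] N' := (IsScalarTower.toAlgHom K M N').comp A.j with hj'
  have hj'θ : ∀ θ, j' θ = algebraMap M N' (A.j θ) := fun θ => rfl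
  have hje : ∀ θ, P.iot j' θ = pl.iot A.j θ := by
    intro θ
    exact (val_j j' θ).unique ((hP _ _).2 (val_j A.j θ))
  set R : Multiset N' := (p.map (algebraMap M N')).roots with hR
  set c' : Polynomial N' := c.map (algebraMap M N') with hc'
  have hsp : (p.map (algebraMap M N')).Splits := IsSplittingField.splits N' p
  have hpm' : (p.map (algebraMap M N')).Monic := D.pm.map _
  have hcardR : Multiset.card R = p.natDegree := by
    rw [← D.pm.natDegree_map (algebraMap M N')]
    exact (hsp.natDegree_eq_card_roots).symm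
  have hfM : ∀ X : N', (f.map (algebraMap K M)).eval₂ (algebraMap M N') X = aeval X f := by
    intro X
    rw [eval₂_map, aeval_def]
    congr 1
  have hRp : ∀ X ∈ R, c'.eval X ^ 2 = aeval X f ∧ c'.eval X ≠ 0 := by
    intro X hX
    have h1 : (p.map (algebraMap M N')).eval X = 0 := (mem_roots'.1 hX).2
    obtain ⟨q, hq⟩ := D.dvd
    have h2 := congrArg (fun r => eval₂ (algebraMap M N') X r) hq
    simp only [eval₂_sub, eval₂_pow, eval₂_mul] at h2
    rw [hfM, ← eval_map, ← eval_map (f := algebraMap M N') (p := p), h1, zero_mul, sub_eq_zero] at h2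
    refine ⟨h2, fun h0 => ?_⟩
    obtain ⟨a, b, hab⟩ := D.cop
    have h3 := congrArg (fun r => eval₂ (algebraMap M N') X r) hab
    simp only [eval₂_add, eval₂_mul, eval₂_one] at h3
    have h4 : aeval X f = 0 := by
      rw [← h2, ← hc', h0, zero_pow (by norm_num)]
    rw [hfM, ← eval_map (f := algebraMap M N') (p := p), h1, h4, mul_zero, mul_zero, add_zero] at h3
    exact zero_ne_one h3
  have hroot : ∀ θ : AlgebraicClosure K, aeval θ f = 0 → aeval (pl.iot A.j θ) f = 0 := fun θ hθ => by
    rw [aeval_algHom_apply, hθ, map_zero]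
  -- the normalised product
  set T : AlgebraicClosure L → N' := fun e => (R.map fun X => nn P c' g e X).prod with hT
  set Z : AlgebraicClosure K → N' := fun θ => algebraMap M N' (W θ) / T (pl.iot A.j θ) with hZ
  have hT0 : ∀ θ : AlgebraicClosure K, aeval θ f = 0 → T (pl.iot A.j θ) ≠ 0 := by
    intro θ hθ
    rw [hT]
    refine Multiset.prod_ne_zero ?_
    rw [Multiset.mem_map]
    rintro ⟨X, hX, h0⟩
    obtain ⟨h1, h2⟩ := hRp X hX
    rw [← hje] at h0
    exact (ratio D.mon D.sep D.deg j' hθ h1 h2).1 h0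
  have hZ2 : ∀ θ : AlgebraicClosure K, aeval θ f = 0 → Z θ ^ 2 = j' (aeval θ h) *
      (R.map fun X => (X - j' θ) / nn P c' g (pl.iot A.j θ) X ^ 2).prod := by
    intro θ hθ
    have e1 : (-1) ^ p.natDegree * (p.map (algebraMap M N')).eval (j' θ) =
        (R.map fun X => X - j' θ).prod := by
      have h1 : (p.map (algebraMap M N')).eval (j' θ) = (R.map fun X => j' θ - X).prod := by
        conv_lhs => rw [hsp.eq_prod_roots_of_monic hpm']
        rw [eval_multiset_prod, Multiset.map_map]
        congr 1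
        refine Multiset.map_congr rfl fun r _ => ?_
        rw [Function.comp_apply, eval_sub, eval_X, eval_C]
      rw [h1, ← hcardR, ← Multiset.card_map (fun _ => (-1 : N')) R, ← Multiset.prod_replicate]
      have e2 : Multiset.replicate (Multiset.card (R.map fun _ => (-1 : N'))) (-1) =
          R.map fun _ => (-1 : N') := by
        rw [Multiset.map_const', Multiset.card_replicate]
      rw [e2, ← Multiset.prod_map_mul]
      congr 1
      refine Multiset.map_congr rfl fun r _ => ?_
      ring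
    have e2 : (R.map fun X => (X - j' θ) / nn P c' g (pl.iot A.j θ) X ^ 2).prod =
        (R.map fun X => X - j' θ).prod / T (pl.iot A.j θ) ^ 2 := by
      rw [hT, ← Multiset.prod_map_pow, ← Multiset.prod_map_div]
    rw [e2, ← e1]
    change (algebraMap M N' (W θ) / T (pl.iot A.j θ)) ^ 2 = _
    have e3 : (p.map (algebraMap M N')).eval (j' θ) = algebraMap M N' (p.eval (A.j θ)) :=
      eval_map_apply (algebraMap M N') (A.j θ)
    rw [div_pow, ← map_pow, D.sq θ hθ, map_mul, map_mul, map_pow, map_neg, map_one, mul_div_assoc,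
      e3]
    rfl
  have hZv : ∀ θ : AlgebraicClosure K, aeval θ f = 0 → P.val (Z θ ^ 2)
      (aeval (pl.iot A.j θ) h * (R.map fun X => fe P f (pl.iot A.j θ) X).prod) := by
    intro θ hθ
    rw [hZ2 θ hθ]
    refine val.mul ?_ (val_mprod R fun X hX => ?_)
    · have h1 := val_j (pl := P) j' (aeval θ h)
      rw [hje, ← aeval_algHom_apply (pl.iot A.j)] at h1
      exact h1
    · obtain ⟨h1, h2⟩ := hRp X hX
      have h3 := (ratio (P := P) D.mon D.sep D.deg j' hθ h1 h2).2
      rw [hje] at h3
      exact h3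
  have hZm : ∀ θ : AlgebraicClosure K, aeval θ f = 0 → Z θ ∈ P.W := fun θ hθ =>
    mem_of_pow_mem (n := 2) (by norm_num) (hZv θ hθ).mem
  -- the values
  have hex : ∀ e : AlgebraicClosure L, aeval e f = 0 → ∃ c : AlgebraicClosure L,
      ∀ θ : AlgebraicClosure K, pl.iot A.j θ = e → P.val (Z θ) c := by
    intro e he
    obtain ⟨θ, hθ, h1⟩ := root_lift (pl.iot A.j) D.mon he
    obtain ⟨c, hc⟩ := val_of_mem (hZm θ hθ)
    refine ⟨c, fun θ' h' => ?_⟩
    have : θ' = θ := (pl.iot A.j).injective (h'.trans h1.symm)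
    rw [this]
    exact hc
  choose! γ hγ using hex
  -- the lifts
  have hlift : ∀ (σ : AlgebraicClosure L ≃ₐ[L] AlgebraicClosure L)
      (τ : AlgebraicClosure K ≃ₐ[K] AlgebraicClosure K), Compat (pl.iot A.j) σ τ →
      ∃ φ : N' →+* N', (∀ z, φ (algebraMap M N' z) = algebraMap M N' (A.s τ z)) ∧
        (∀ z c, P.val z c ↔ P.val (φ z) (σ c)) ∧ R.map φ = R ∧
        ∀ X, c'.eval (φ X) = φ (c'.eval X) := by
    intro σ τ hστ
    obtain ⟨φ, h1, h2⟩ := hl σ τ hστ
    have hcomp : φ.comp (algebraMap M N') =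
        (algebraMap M N').comp ((A.s τ : M →ₐ[K] M) : M →+* M) := RingHom.ext h1
    refine ⟨φ, h1, h2, ?_, fun X => ?_⟩
    · have h3 := Polynomial.Splits.roots_map hsp φ
      rw [Polynomial.map_map, hcomp, ← Polynomial.map_map, D.fixp] at h3
      exact h3.symm
    · have h3 : c'.map φ = c' := by
        rw [hc', Polynomial.map_map, hcomp, ← Polynomial.map_map, D.fixc]
      conv_lhs => rw [← h3]
      exact eval_map_apply φ X
  have hmemφ : ∀ {σ : AlgebraicClosure L ≃ₐ[L] AlgebraicClosure L} {φ : N' →+* N'},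
      (∀ z c, P.val z c ↔ P.val (φ z) (σ c)) → ∀ X, (φ X ∈ P.W ↔ X ∈ P.W) := by
    intro σ φ h2 X
    constructor
    · intro h3
      obtain ⟨c, hc⟩ := val_of_mem h3
      have h4 := (h2 X (σ.symm c)).2 (by rw [σ.apply_symm_apply]; exact hc)
      exact h4.mem
    · intro h3
      obtain ⟨c, hc⟩ := val_of_mem h3
      exact ((h2 X c).1 hc).mem
  have hvvφ : ∀ {σ : AlgebraicClosure L ≃ₐ[L] AlgebraicClosure L} {φ : N' →+* N'},
      (∀ z c, P.val z c ↔ P.val (φ z) (σ c)) → ∀ X, X ∈ P.W → vv P (φ X) = σ (vv P X) := by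
    intro σ φ h2 X hX
    have h3 := (h2 _ _).1 (val_vv P hX)
    exact (val_vv P h3.mem).unique h3
  have hγ2 : ∀ (σ : AlgebraicClosure L ≃ₐ[L] AlgebraicClosure L) (e : AlgebraicClosure L),
      aeval e f = 0 → σ (γ e) = γ (σ e) := by
    intro σ e he
    obtain ⟨θ, hθ, rfl⟩ := root_lift (pl.iot A.j) D.mon he
    obtain ⟨τ, hτ⟩ := exists_compat (pl.iot A.j) σ
    obtain ⟨φ, h1, h2, h3, h4⟩ := hlift σ τ hτ
    have hτθ : aeval (τ θ) f = 0 := by
      have h1 := aeval_algHom_apply (τ : AlgebraicClosure K →ₐ[K] AlgebraicClosure K) θ f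
      rw [hθ, map_zero] at h1
      exact h1
    have hφT : φ (T (pl.iot A.j θ)) = T (σ (pl.iot A.j θ)) := by
      have e1 : T (σ (pl.iot A.j θ)) = ((R.map φ).map fun X => nn P c' g (σ (pl.iot A.j θ)) X).prod := by
        rw [h3]
      rw [e1]
      change φ (R.map fun X => nn P c' g (pl.iot A.j θ) X).prod = _
      rw [map_multiset_prod, Multiset.map_map, Multiset.map_map]
      congr 1
      refine Multiset.map_congr rfl fun X _ => ?_
      rw [Function.comp_apply, Function.comp_apply]
      unfold nn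
      by_cases hX : X ∈ P.W
      · rw [if_pos hX, if_pos ((hmemφ h2 X).2 hX), hvvφ h2 X hX]
        by_cases hv : vv P X = pl.iot A.j θ
        · rw [if_pos hv, if_pos (by rw [hv]), h4]
        · rw [if_neg hv, if_neg (fun h5 => hv (σ.injective h5)), map_one]
      · rw [if_neg hX, if_neg (fun h5 => hX ((hmemφ h2 X).1 h5)), map_div₀, map_pow, h4]
    have hφZ : φ (Z θ) = Z (τ θ) := by
      change φ (algebraMap M N' (W θ) / T (pl.iot A.j θ)) =
        algebraMap M N' (W (τ θ)) / T (pl.iot A.j (τ θ))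
      rw [map_div₀, h1, D.act τ θ hθ, hφT, hτ θ]
    have h5 := (h2 _ _).1 (hγ _ he θ rfl)
    rw [hφZ] at h5
    have h6 := hγ _ (hroot _ hτθ) (τ θ) rfl
    rw [hτ θ] at h6
    exact h5.unique h6
  -- the divisor
  set S : Multiset (AlgebraicClosure L × AlgebraicClosure L) :=
    (R.filter fun X => X ∈ P.W).map fun X => (vv P X, vv P (c'.eval X)) with hS
  have hYW : ∀ X ∈ R, X ∈ P.W → c'.eval X ∈ P.W := by
    intro X hX hXW
    refine mem_of_pow_mem (n := 2) (by norm_num) ?_
    rw [(hRp X hX).1]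
    exact (val_aeval (val_vv P hXW) f).mem
  have hS1 : ∀ Q ∈ S, Q.2 ^ 2 = aeval Q.1 (f.map (algebraMap K L)) := by
    intro Q hQ
    rw [hS, Multiset.mem_map] at hQ
    obtain ⟨X, hX, rfl⟩ := hQ
    rw [Multiset.mem_filter] at hX
    have h1 := (val_vv P (hYW X hX.1 hX.2)).pow 2
    rw [(hRp X hX.1).1] at h1
    rw [aev_L]
    exact h1.unique (val_aeval (val_vv P hX.2) f)
  have hS2 : ∀ σ : AlgebraicClosure L ≃ₐ[L] AlgebraicClosure L,
      S.map (fun Q => (σ Q.1, σ Q.2)) = S := by
    intro σ
    obtain ⟨τ, hτ⟩ := exists_compat (pl.iot A.j) σ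
    obtain ⟨φ, h1, h2, h3, h4⟩ := hlift σ τ hτ
    have e1 : S = ((R.map φ).filter fun X => X ∈ P.W).map fun X => (vv P X, vv P (c'.eval X)) := by
      rw [h3]
    conv_rhs => rw [e1]
    rw [hS, Multiset.map_map, Multiset.filter_map, Multiset.map_map]
    have e2 : (R.filter ((fun X => X ∈ P.W) ∘ φ)) = R.filter fun X => X ∈ P.W :=
      Multiset.filter_congr fun X _ => hmemφ h2 X
    rw [e2]
    refine Multiset.map_congr rfl fun X hX => ?_
    rw [Multiset.mem_filter] at hX
    rw [Function.comp_apply, Function.comp_apply, hvvφ h2 X hX.2, h4,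
      hvvφ h2 _ (hYW X hX.1 hX.2)]
  have hS3 : ∀ e : AlgebraicClosure L, aeval e (f.map (algebraMap K L)) = 0 → γ e ^ 2 =
      aeval e (h.map (algebraMap K L)) * (S.map fun Q => if Q.1 = e then
        (aeval e (derivative (f.map (algebraMap K L))))⁻¹ else Q.1 - e).prod := by
    intro e he
    rw [aev_L] at he
    have e1 : (S.map fun Q => if Q.1 = e then
        (aeval e (derivative (f.map (algebraMap K L))))⁻¹ else Q.1 - e).prod =
        (R.map fun X => fe P f e X).prod := by
      have e2 : (R.map fun X => fe P f e X).prod =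
          ((R.filter fun X => X ∈ P.W).map fun X => fe P f e X).prod *
          ((R.filter fun X => ¬ X ∈ P.W).map fun X => fe P f e X).prod := by
        rw [← Multiset.prod_add, ← Multiset.map_add, Multiset.filter_add_not]
      have e3 : ((R.filter fun X => ¬ X ∈ P.W).map fun X => fe P f e X).prod = 1 := by
        refine Multiset.prod_eq_one fun z hz => ?_
        rw [Multiset.mem_map] at hz
        obtain ⟨X, hX, rfl⟩ := hz
        rw [Multiset.mem_filter] at hX
        unfold fe
        rw [if_neg hX.2]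
      rw [e2, e3, mul_one, hS, Multiset.map_map]
      congr 1
      refine Multiset.map_congr rfl fun X hX => ?_
      rw [Multiset.mem_filter] at hX
      rw [Function.comp_apply]
      unfold fe
      rw [if_pos hX.2, derivative_map, aev_L]
    rw [e1, aev_L]
    obtain ⟨θ, hθ, rfl⟩ := root_lift (pl.iot A.j) D.mon he
    exact ((hγ _ he θ rfl).pow 2).unique (hZv θ hθ)
  obtain ⟨l, s, h1, h2⟩ := hDiv L (f.map (algebraMap K L)) g (D.mon.map _) D.sep.map
    (by rw [D.mon.natDegree_map, D.deg]) S hS1 hS2 (h.map (algebraMap K L)) γ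
    (fun σ e he => hγ2 σ e (by rwa [aev_L] at he)) hS3
  exact ⟨l, s, h1, h2⟩

end loc

end Pool.Agent.Helper82.SZ
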